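import Mathlib

/-!
# The affine line cover number of the dodecahedron graph (MP_a0dd0b)
-/

namespace Pool.Agent.A0dd0b

open scoped BigOperators

/-- Three dimensional Euclidean space. -/
abbrev E3 : Type := EuclideanSpace ℝ (Fin 3)

/-- A crossing-free straight-line drawing `f` of the graph `G` in a real vector space: the
vertices are mapped injectively to points, two different edge segments meet only in the image of
a common end vertex, and no vertex lies on an edge segment except as an end of it. -/
structure IsDrawing {V E : Type*} [AddCommGroup E] [Module ℝ E]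
    (G : SimpleGraph V) (f : V → E) : Prop where
  inj : Function.Injective f
  cross : ∀ u v x y, G.Adj u v → G.Adj x y → s(u, v) ≠ s(x, y) →
    ∀ p, p ∈ segment ℝ (f u) (f v) → p ∈ segment ℝ (f x) (f y) →
      ∃ w, (w = u ∨ w = v) ∧ (w = x ∨ w = y) ∧ p = f w
  vertex : ∀ u v w, G.Adj u v → f w ∈ segment ℝ (f u) (f v) → w = u ∨ w = v

/-- All edge segments of the drawing `f` of `G` in `ℝ³` lie in the union of `k` lines (a line is
an affine subspace whose direction is one-dimensional). -/
def CoveredBy {V : Type*} (G : SimpleGraph V) (f : V → E3) (k : ℕ) : Prop :=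
  ∃ L : Fin k → AffineSubspace ℝ E3, (∀ i, Module.finrank ℝ (L i).direction = 1) ∧
    ∀ u v, G.Adj u v → segment ℝ (f u) (f v) ⊆ ⋃ i, (L i : Set E3)

/-- The affine line cover number `ρ₃¹(G)`: the least `k` such that `G` has a crossing-free
straight-line drawing in `ℝ³` whose edge segments lie in the union of `k` lines. -/
noncomputable def rho31 {V : Type*} (G : SimpleGraph V) : ℕ :=
  sInf {k : ℕ | ∃ f : V → E3, IsDrawing G f ∧ CoveredBy G f k}

/-- The dodecahedron graph, in its standard description as the generalized Petersen graph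
`GP(10,2)`: an outer 10-cycle `0,…,9`, spokes `i – 10+i`, and inner edges joining `10+i` to
`10+(i+2 mod 10)`. -/
def dodecahedron : SimpleGraph (Fin 20) :=
  SimpleGraph.fromRel fun u v =>
    (u.val < 10 ∧ v.val = (u.val + 1) % 10) ∨ (u.val < 10 ∧ v.val = u.val + 10) ∨
      (10 ≤ u.val ∧ v.val = 10 + (u.val - 10 + 2) % 10)

instance : DecidableRel dodecahedron.Adj := fun u v => by
  unfold dodecahedron SimpleGraph.fromRel; infer_instance

/-- The list of the 30 edges. -/
def edges : List (Fin 20 × Fin 20) :=
  [(0,1),(0,10),(10,12),(1,2),(1,11),(11,13),(2,3),(2,12),(12,14),(3,4),(3,13),(13,15),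
   (4,5),(4,14),(14,16),(5,6),(5,15),(15,17),(6,7),(6,16),(16,18),(7,8),(7,17),(17,19),
   (8,9),(8,18),(18,10),(9,0),(9,19),(19,11)]

theorem adj_iff : ∀ u v : Fin 20,
    dodecahedron.Adj u v ↔ (u, v) ∈ edges ∨ (v, u) ∈ edges := by
  decide +kernel

end Pool.Agent.A0dd0b
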