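import Pool.Agent.A0dd0b.Planar

/-!
# Counting lines and crossings
-/

namespace Pool.Agent.A0dd0b

open Classical

structure Cover (f : Fin 20 → E3) (L : Finset (AffineSubspace ℝ E3)) : Prop where
  draw : IsDrawing dodecahedron f
  line : ∀ l ∈ L, Module.finrank ℝ l.direction = 1
  edge : ∀ u v, dodecahedron.Adj u v → ∃ l ∈ L, f u ∈ l ∧ f v ∈ l
  used : ∀ l ∈ L, ∃ u v, dodecahedron.Adj u v ∧ f u ∈ l ∧ f v ∈ l

theorem exists_coef {l : AffineSubspace ℝ E3} (h : Module.finrank ℝ l.direction = 1)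
    {d : E3} (hd : d ∈ l.direction) (hd0 : d ≠ 0) {p q : E3} (hp : p ∈ l) (hq : q ∈ l) :
    ∃ s : ℝ, q = p + s • d := by
  have hd0' : (⟨d, hd⟩ : l.direction) ≠ 0 := by
    intro h0; apply hd0; exact congrArg Subtype.val h0
  have h1 := (finrank_eq_one_iff_of_nonzero' (⟨d, hd⟩ : l.direction) hd0').1 h
  obtain ⟨c, hc⟩ := h1 ⟨q - p, by
    have := AffineSubspace.vsub_mem_direction hq hp
    simpa using this⟩
  refine ⟨c, ?_⟩
  have := congrArg Subtype.val hc
  simp at this
  rw [this]; abel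

theorem line_eq {l l' : AffineSubspace ℝ E3} (h : Module.finrank ℝ l.direction = 1)
    (h' : Module.finrank ℝ l'.direction = 1) {p q : E3} (hp : p ∈ l) (hq : q ∈ l)
    (hp' : p ∈ l') (hq' : q ∈ l') (hpq : p ≠ q) : l = l' := by
  have hd : q - p ≠ 0 := sub_ne_zero.2 hpq.symm
  have hdl : q - p ∈ l.direction := by
    simpa using AffineSubspace.vsub_mem_direction hq hp
  have hdl' : q - p ∈ l'.direction := by
    simpa using AffineSubspace.vsub_mem_direction hq' hp'
  apply le_antisymm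
  · intro x hx
    obtain ⟨s, rfl⟩ := exists_coef h hdl hd hp hx
    have := AffineSubspace.vadd_mem_of_mem_direction (Submodule.smul_mem _ s hdl') hp'
    simpa [add_comm] using this
  · intro x hx
    obtain ⟨s, rfl⟩ := exists_coef h' hdl' hd hp' hx
    have := AffineSubspace.vadd_mem_of_mem_direction (Submodule.smul_mem _ s hdl) hp
    simpa [add_comm] using this

variable {f : Fin 20 → E3} {L : Finset (AffineSubspace ℝ E3)}

/-- Two edges at `v` on a common line leave `v` in opposite directions. -/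
theorem Cover.opposite (hC : Cover f L) {l : AffineSubspace ℝ E3} (hl : l ∈ L)
    {v a b : Fin 20} (hva : dodecahedron.Adj v a) (hvb : dodecahedron.Adj v b) (hab : a ≠ b)
    (hv : f v ∈ l) (ha : f a ∈ l) (hb : f b ∈ l) :
    ∃ r : ℝ, 0 < r ∧ f b - f v = -(r • (f a - f v)) := by
  have hd0 : f a - f v ≠ 0 := sub_ne_zero.2 fun h => hva.ne (hC.draw.inj h).symm
  have hd : f a - f v ∈ l.direction := by
    simpa using AffineSubspace.vsub_mem_direction ha hv
  obtain ⟨s, hs⟩ := exists_coef (hC.line l hl) hd hd0 hv hb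
  have hs' : f b - f v = s • (f a - f v) := by rw [hs]; abel
  rcases lt_trichotomy s 0 with h | h | h
  · exact ⟨-s, by linarith, by rw [hs', neg_smul, neg_neg]⟩
  · exfalso
    rw [h, zero_smul, sub_eq_zero] at hs'
    exact hvb.ne (hC.draw.inj hs').symm
  · exfalso
    rcases le_total s 1 with h1 | h1
    · have hmem : f b ∈ segment ℝ (f v) (f a) := by
        refine ⟨1 - s, s, by linarith, h.le, by ring, ?_⟩
        rw [hs]; module
      rcases hC.draw.vertex _ _ _ hva hmem with h2 | h2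
      · exact hvb.ne h2.symm
      · exact hab h2.symm
    · have hmem : f a ∈ segment ℝ (f v) (f b) := by
        refine ⟨1 - s⁻¹, s⁻¹, by linarith [inv_le_one_of_one_le₀ h1], (inv_pos.2 h).le, by ring, ?_⟩
        have h3 : f a = f v + s⁻¹ • (f b - f v) := by
          rw [hs', smul_smul, inv_mul_cancel₀ h.ne', one_smul]; abel
        rw [h3]
        module
      rcases hC.draw.vertex _ _ _ hvb hmem with h2 | h2
      · exact hva.ne h2.symm
      · exact hab h2

noncomputable def thr (f : Fin 20 → E3) (L : Finset (AffineSubspace ℝ E3)) (v : Fin 20) :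
    Finset (AffineSubspace ℝ E3) := L.filter fun l => f v ∈ l

theorem mem_thr {v : Fin 20} {l : AffineSubspace ℝ E3} : l ∈ thr f L v ↔ l ∈ L ∧ f v ∈ l := by
  unfold thr; rw [Finset.mem_filter]

theorem nb_three (v : Fin 20) : ∃ x₁ x₂ x₃, nb v = [x₁, x₂, x₃] ∧ x₁ ≠ x₂ ∧ x₁ ≠ x₃ ∧ x₂ ≠ x₃ := by
  obtain ⟨x₁, x₂, x₃, hx⟩ : ∃ x₁ x₂ x₃, nb v = [x₁, x₂, x₃] := by
    unfold nb; split_ifs <;> exact ⟨_, _, _, rfl⟩
  have hnd := nb_nodup v
  rw [hx] at hnd
  simp only [List.nodup_cons, List.mem_cons, List.not_mem_nil, or_false, not_or,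
    List.nodup_nil, not_false_eq_true, and_true] at hnd
  exact ⟨x₁, x₂, x₃, hx, hnd.1.1, hnd.1.2, hnd.2⟩

/-- If at most two lines pass through `f v`, two of the three edges at `v` share a line. -/
theorem Cover.exists_pass (hC : Cover f L) {v : Fin 20} (h : (thr f L v).card ≤ 2) :
    ∃ l ∈ L, f v ∈ l ∧ ∃ a b, dodecahedron.Adj v a ∧ dodecahedron.Adj v b ∧ a ≠ b ∧
      f a ∈ l ∧ f b ∈ l := by
  obtain ⟨x₁, x₂, x₃, hx, n12, n13, n23⟩ := nb_three v
  have a1 : dodecahedron.Adj v x₁ := (nb_iff _ _).2 (by rw [hx]; simp)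
  have a2 : dodecahedron.Adj v x₂ := (nb_iff _ _).2 (by rw [hx]; simp)
  have a3 : dodecahedron.Adj v x₃ := (nb_iff _ _).2 (by rw [hx]; simp)
  obtain ⟨l1, hl1, hv1, hx1⟩ := hC.edge _ _ a1
  obtain ⟨l2, hl2, hv2, hx2⟩ := hC.edge _ _ a2
  obtain ⟨l3, hl3, hv3, hx3⟩ := hC.edge _ _ a3
  by_contra hcon
  push Not at hcon
  have n1 : l1 ≠ l2 := by
    intro e; subst e
    exact hcon l1 hl1 hv1 x₁ x₂ a1 a2 n12 hx1 hx2
  have n2 : l1 ≠ l3 := by
    intro e; subst e
    exact hcon l1 hl1 hv1 x₁ x₃ a1 a3 n13 hx1 hx3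
  have n3 : l2 ≠ l3 := by
    intro e; subst e
    exact hcon l2 hl2 hv2 x₂ x₃ a2 a3 n23 hx2 hx3
  have : ({l1, l2, l3} : Finset (AffineSubspace ℝ E3)) ⊆ thr f L v := by
    intro l hl
    simp only [Finset.mem_insert, Finset.mem_singleton] at hl
    rcases hl with rfl | rfl | rfl
    · exact mem_thr.2 ⟨hl1, hv1⟩
    · exact mem_thr.2 ⟨hl2, hv2⟩
    · exact mem_thr.2 ⟨hl3, hv3⟩
  have h3 := Finset.card_le_card this
  have h4 : ({l1, l2, l3} : Finset (AffineSubspace ℝ E3)).card = 3 := by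
    rw [Finset.card_eq_three]; exact ⟨l1, l2, l3, n1, n2, n3, rfl⟩
  omega

theorem Cover.two_le (hC : Cover f L) (v : Fin 20) : 2 ≤ (thr f L v).card := by
  obtain ⟨x₁, x₂, x₃, hx, n12, n13, n23⟩ := nb_three v
  have a1 : dodecahedron.Adj v x₁ := (nb_iff _ _).2 (by rw [hx]; simp)
  have a2 : dodecahedron.Adj v x₂ := (nb_iff _ _).2 (by rw [hx]; simp)
  have a3 : dodecahedron.Adj v x₃ := (nb_iff _ _).2 (by rw [hx]; simp)
  obtain ⟨l1, hl1, hv1, hx1⟩ := hC.edge _ _ a1
  obtain ⟨l2, hl2, hv2, hx2⟩ := hC.edge _ _ a2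
  obtain ⟨l3, hl3, hv3, hx3⟩ := hC.edge _ _ a3
  by_contra hcon
  have hle : (thr f L v).card ≤ 1 := by omega
  rw [Finset.card_le_one] at hle
  have e12 := hle l1 (mem_thr.2 ⟨hl1, hv1⟩) l2 (mem_thr.2 ⟨hl2, hv2⟩)
  have e13 := hle l1 (mem_thr.2 ⟨hl1, hv1⟩) l3 (mem_thr.2 ⟨hl3, hv3⟩)
  subst e12 e13
  obtain ⟨r1, hr1, e1⟩ := hC.opposite hl1 a1 a2 n12 hv1 hx1 hx2
  obtain ⟨r2, hr2, e2⟩ := hC.opposite hl1 a1 a3 n13 hv1 hx1 hx3
  obtain ⟨r3, hr3, e3⟩ := hC.opposite hl1 a2 a3 n23 hv1 hx2 hx3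
  have h0 : (r1 * r3 + r2) • (f x₁ - f v) = 0 := by
    rw [e1, e2] at e3
    have : (r1 * r3 + r2) • (f x₁ - f v) = r3 • r1 • (f x₁ - f v) + r2 • (f x₁ - f v) := by
      module
    rw [this]
    rw [smul_neg, neg_neg] at e3
    rw [← e3]; abel
  rw [smul_eq_zero] at h0
  rcases h0 with h | h
  · have := mul_pos hr1 hr3; linarith
  · exact a1.ne (hC.draw.inj (sub_eq_zero.1 h)).symm

/-- `v` is the last vertex on the line `l` in direction `d`. -/
def IsEnd (f : Fin 20 → E3) (l : AffineSubspace ℝ E3) (d : E3) (v : Fin 20) : Prop :=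
  f v ∈ l ∧ ∀ w, f w ∈ l → ∀ t : ℝ, 0 < t → f w ≠ f v + t • d

theorem Cover.exists_end (hC : Cover f L) {l : AffineSubspace ℝ E3} (hl : l ∈ L) {d : E3}
    (hd0 : d ≠ 0) : ∃ v, IsEnd f l d v := by
  obtain ⟨u, -, -, hu, -⟩ := hC.used l hl
  obtain ⟨v, hv, hmax⟩ := Finset.exists_max_image (Finset.univ.filter fun w => f w ∈ l)
    (fun w => inner ℝ d (f w)) ⟨u, by simp [hu]⟩
  rw [Finset.mem_filter] at hv
  refine ⟨v, hv.2, ?_⟩
  intro w hw t ht he
  have h1 := hmax w (by simp [hw])
  rw [he, inner_add_right, inner_smul_right] at h1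
  have h2 : 0 < inner ℝ d d := real_inner_self_pos.2 hd0
  have := mul_pos ht h2
  linarith

theorem Cover.beyond (hC : Cover f L) {l : AffineSubspace ℝ E3} (hl : l ∈ L) {d : E3}
    (hd0 : d ≠ 0) (hd : d ∈ l.direction) {v : Fin 20} (hE : IsEnd f l d v) {x y : Fin 20}
    (hx : f x ∈ l) (hy : f y ∈ l) {t : ℝ} (ht : 0 < t)
    (hp : f v + t • d ∈ segment ℝ (f x) (f y)) : False := by
  obtain ⟨α, hα⟩ := exists_coef (hC.line l hl) hd hd0 hE.1 hx
  obtain ⟨β, hβ⟩ := exists_coef (hC.line l hl) hd hd0 hE.1 hy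
  have hα0 : α ≤ 0 := by
    by_contra h; push Not at h; exact hE.2 x hx α h hα
  have hβ0 : β ≤ 0 := by
    by_contra h; push Not at h; exact hE.2 y hy β h hβ
  obtain ⟨a, b, ha, hb, hab, he⟩ := hp
  have h1 : (a * α + b * β - t) • d = 0 := by
    rw [hα, hβ] at he
    have : (a * α + b * β - t) • d = (a • (f v + α • d) + b • (f v + β • d)) -
        (f v + t • d) - ((a + b) - 1) • f v := by module
    rw [this, he, hab]; simp
  rw [smul_eq_zero] at h1
  rcases h1 with h1 | h1
  · nlinarith [mul_nonneg ha (neg_nonneg.2 hα0), mul_nonneg hb (neg_nonneg.2 hβ0)]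
  · exact hd0 h1

theorem Cover.end_ne (hC : Cover f L) {l : AffineSubspace ℝ E3} (hl : l ∈ L) {d : E3}
    (hd0 : d ≠ 0) (hd : d ∈ l.direction) {v : Fin 20} (h1 : IsEnd f l d v)
    (h2 : IsEnd f l (-d) v) : False := by
  obtain ⟨x, y, hxy, hx, hy⟩ := hC.used l hl
  have key : ∀ w, f w ∈ l → w = v := by
    intro w hw
    obtain ⟨s, hs⟩ := exists_coef (hC.line l hl) hd hd0 h1.1 hw
    rcases lt_trichotomy s 0 with h | h | h
    · exact absurd (by rw [hs]; module) (h2.2 w hw (-s) (by linarith))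
    · rw [h, zero_smul, add_zero] at hs
      exact hC.draw.inj hs
    · exact absurd hs (h1.2 w hw s h)
  exact hxy.ne ((key x hx).trans (key y hy).symm)

theorem Cover.not_end (hC : Cover f L) {l : AffineSubspace ℝ E3} (hl : l ∈ L) {d : E3}
    (hd0 : d ≠ 0) (hd : d ∈ l.direction) {v a b : Fin 20} (hva : dodecahedron.Adj v a)
    (hvb : dodecahedron.Adj v b) (hab : a ≠ b) (ha : f a ∈ l) (hb : f b ∈ l)
    (h1 : IsEnd f l d v) : False := by
  obtain ⟨r, hr, hr'⟩ := hC.opposite hl hva hvb hab h1.1 ha hb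
  obtain ⟨s, hs⟩ := exists_coef (hC.line l hl) hd hd0 h1.1 ha
  rcases lt_trichotomy s 0 with h | h | h
  · apply h1.2 b hb (-(r * s)) (by nlinarith)
    have : f b = f v + (f b - f v) := by abel
    rw [this, hr', hs]
    module
  · rw [h, zero_smul, add_zero] at hs
    exact hva.ne (hC.draw.inj hs).symm
  · exact h1.2 a ha s h hs

/-- Ordered pairs of lines of the family without a common vertex of the drawing. -/
noncomputable def Free (f : Fin 20 → E3) (L : Finset (AffineSubspace ℝ E3)) :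
    Finset (AffineSubspace ℝ E3 × AffineSubspace ℝ E3) :=
  L.offDiag.filter fun p => ∀ v, ¬ (f v ∈ p.1 ∧ f v ∈ p.2)

theorem Cover.sum_le (hC : Cover f L) :
    ∑ v, ((thr f L v).card * (thr f L v).card - (thr f L v).card) + (Free f L).card ≤
      L.card * L.card - L.card := by
  have h1 : ∀ v, (thr f L v).card * (thr f L v).card - (thr f L v).card =
      (thr f L v).offDiag.card := fun v => (Finset.offDiag_card _).symm
  rw [← Finset.offDiag_card]
  simp only [h1]
  rw [← Finset.card_biUnion, ← Finset.card_union_of_disjoint]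
  · apply Finset.card_le_card
    intro p hp
    rw [Finset.mem_union, Finset.mem_biUnion] at hp
    rcases hp with ⟨v, -, hp⟩ | hp
    · rw [Finset.mem_offDiag, mem_thr, mem_thr] at hp
      rw [Finset.mem_offDiag]
      exact ⟨hp.1.1, hp.2.1.1, hp.2.2⟩
    · unfold Free at hp
      exact (Finset.mem_filter.1 hp).1
  · rw [Finset.disjoint_left]
    intro p hp hp'
    rw [Finset.mem_biUnion] at hp
    obtain ⟨v, -, hp⟩ := hp
    rw [Finset.mem_offDiag, mem_thr, mem_thr] at hp
    unfold Free at hp'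
    exact (Finset.mem_filter.1 hp').2 v ⟨hp.1.2, hp.2.1.2⟩
  · intro v _ w _ hvw
    rw [Function.onFun, Finset.disjoint_left]
    intro p hp hp'
    rw [Finset.mem_offDiag, mem_thr, mem_thr] at hp hp'
    apply hp.2.2
    exact line_eq (hC.line _ hp.1.1) (hC.line _ hp.2.1.1) hp.1.2 hp'.1.2 hp.2.1.2 hp'.2.1.2
      (fun h => hvw (hC.draw.inj h))

theorem Cover.card_ge_of_face (hC : Cover f L) {cyc : Fin 5 → Fin 20}
    (hinj : Function.Injective cyc) (hadj : ∀ i, dodecahedron.Adj (cyc i) (cyc (i + 1)))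
    (hF : ∀ v, (∀ i, cyc i ≠ v) → ∀ l ∈ L, f v ∈ l → ∀ d ∈ l.direction, d ≠ 0 →
      ∃ t : ℝ, 0 < t ∧ ∃ i, f v + t • d ∈ segment ℝ (f (cyc i)) (f (cyc (i + 1)))) :
    9 ≤ L.card := by
  -- directions
  have hdir : ∀ l : AffineSubspace ℝ E3, ∃ d : E3, l ∈ L → d ∈ l.direction ∧ d ≠ 0 := by
    intro l
    by_cases hl : l ∈ L
    · obtain ⟨x, y, hxy, hx, hy⟩ := hC.used l hl
      refine ⟨f x - f y, fun _ => ⟨by simpa using AffineSubspace.vsub_mem_direction hx hy, ?_⟩⟩
      exact sub_ne_zero.2 fun h => hxy.ne (hC.draw.inj h)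
    · exact ⟨0, fun h => absurd h hl⟩
  choose dir hdir using hdir
  set sd : AffineSubspace ℝ E3 × Bool → E3 := fun q => if q.2 then dir q.1 else -dir q.1 with hsd
  have hsd1 : ∀ q : AffineSubspace ℝ E3 × Bool, q.1 ∈ L → sd q ∈ q.1.direction ∧ sd q ≠ 0 := by
    intro q hq
    obtain ⟨h1, h2⟩ := hdir q.1 hq
    rw [hsd]
    dsimp only
    split_ifs
    · exact ⟨h1, h2⟩
    · exact ⟨Submodule.neg_mem _ h1, neg_ne_zero.2 h2⟩
  have hst : ∀ q : AffineSubspace ℝ E3 × Bool, ∃ v, q.1 ∈ L → IsEnd f q.1 (sd q) v := by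
    intro q
    by_cases hq : q.1 ∈ L
    · obtain ⟨v, hv⟩ := hC.exists_end hq (hsd1 q hq).2
      exact ⟨v, fun _ => hv⟩
    · exact ⟨0, fun h => absurd h hq⟩
  choose st hst using hst
  set F : Finset (Fin 20) := Finset.univ.image cyc with hFdef
  have hFcard : F.card = 5 := by
    rw [hFdef, Finset.card_image_of_injective _ hinj]; simp
  have hFmem : ∀ v, v ∉ F → ∀ i, cyc i ≠ v := by
    intro v hv i hi
    apply hv
    rw [hFdef, Finset.mem_image]
    exact ⟨i, Finset.mem_univ _, hi⟩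
  set R : Finset (AffineSubspace ℝ E3 × Bool) := L ×ˢ Finset.univ with hR
  have hRcard : R.card = 2 * L.card := by
    rw [hR, Finset.card_product]; simp [mul_comm]
  have hRmem : ∀ q ∈ R, q.1 ∈ L := by
    intro q hq; rw [hR, Finset.mem_product] at hq; exact hq.1
  -- opposite ends are different
  have hopp : ∀ l ∈ L, st (l, true) ≠ st (l, false) := by
    intro l hl he
    have h1 := hst (l, true) hl
    have h2 := hst (l, false) hl
    rw [← he] at h2
    apply hC.end_ne hl (hdir l hl).2 (hdir l hl).1 (v := st (l, true))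
    · simpa [hsd] using h1
    · simpa [hsd] using h2
  -- rays starting at a fixed vertex
  have hRv : ∀ v, 2 * (R.filter fun q => st q = v).card ≤
      (thr f L v).card * (thr f L v).card - (thr f L v).card := by
    intro v
    have hinjfst : Set.InjOn (Prod.fst : AffineSubspace ℝ E3 × Bool → _)
        ((R.filter fun q => st q = v) : Set (AffineSubspace ℝ E3 × Bool)) := by
      rintro ⟨l, s⟩ hq ⟨l', s'⟩ hq' he
      simp only [Finset.coe_filter, Set.mem_ofPred_eq] at hq hq'
      simp only at he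
      subst he
      have hl : l ∈ L := hRmem _ hq.1
      cases s <;> cases s'
      · rfl
      · exact absurd (hq'.2.trans hq.2.symm) (hopp l hl)
      · exact absurd (hq.2.trans hq'.2.symm) (hopp l hl)
      · rfl
    have hsub : (R.filter fun q => st q = v).image Prod.fst ⊆ thr f L v := by
      intro l hl
      rw [Finset.mem_image] at hl
      obtain ⟨q, hq, rfl⟩ := hl
      rw [Finset.mem_filter] at hq
      have := hst q (hRmem q hq.1)
      rw [hq.2] at this
      exact mem_thr.2 ⟨hRmem q hq.1, this.1⟩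
    have hle : (R.filter fun q => st q = v).card ≤ (thr f L v).card := by
      rw [← Finset.card_image_of_injOn hinjfst]
      exact Finset.card_le_card hsub
    have h2 := hC.two_le v
    by_cases h3 : (thr f L v).card ≤ 2
    · obtain ⟨l, hl, hvl, a, b, hva, hvb, hab, ha, hb⟩ := hC.exists_pass h3
      have hsub' : (R.filter fun q => st q = v).image Prod.fst ⊆ (thr f L v).erase l := by
        intro l' hl'
        rw [Finset.mem_erase]
        refine ⟨?_, hsub hl'⟩
        intro he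
        subst he
        rw [Finset.mem_image] at hl'
        obtain ⟨q, hq, rfl⟩ := hl'
        rw [Finset.mem_filter] at hq
        have h4 := hst q (hRmem q hq.1)
        rw [hq.2] at h4
        exact hC.not_end hl (hsd1 q hl).2 (hsd1 q hl).1 hva hvb hab ha hb h4
      have hle' : (R.filter fun q => st q = v).card ≤ (thr f L v).card - 1 := by
        rw [← Finset.card_image_of_injOn hinjfst, ← Finset.card_erase_of_mem (mem_thr.2 ⟨hl, hvl⟩)]
        exact Finset.card_le_card hsub'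
      have h5 : (thr f L v).card = 2 := by omega
      rw [h5] at hle' ⊢
      omega
    · have h5 : 3 ≤ (thr f L v).card := by omega
      have h6 : 3 * (thr f L v).card ≤ (thr f L v).card * (thr f L v).card :=
        Nat.mul_le_mul_right _ h5
      omega
  -- type A
  have hA : 2 * (R.filter fun q => st q ∈ F).card ≤
      ∑ v ∈ F, ((thr f L v).card * (thr f L v).card - (thr f L v).card) := by
    have h1 : (R.filter fun q => st q ∈ F).card =
        ∑ v ∈ F, ((R.filter fun q => st q ∈ F).filter fun q => st q = v).card :=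
      Finset.card_eq_sum_card_fiberwise (fun q hq => (Finset.mem_filter.1 hq).2)
    rw [h1, Finset.mul_sum]
    apply Finset.sum_le_sum
    intro v _
    refine le_trans ?_ (hRv v)
    apply Nat.mul_le_mul_left
    apply Finset.card_le_card
    intro q hq
    rw [Finset.mem_filter, Finset.mem_filter] at hq
    rw [Finset.mem_filter]
    exact ⟨hq.1.1, hq.2⟩
  -- type B
  have hQ : ∀ q : AffineSubspace ℝ E3 × Bool, ∃ l' : AffineSubspace ℝ E3, q ∈ R → st q ∉ F →
      l' ∈ L ∧ ∃ t : ℝ, 0 < t ∧ ∃ x y, f x ∈ l' ∧ f y ∈ l' ∧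
        f (st q) + t • sd q ∈ segment ℝ (f x) (f y) := by
    intro q
    by_cases hq : q ∈ R ∧ st q ∉ F
    · have hl := hRmem q hq.1
      obtain ⟨t, ht, i, hi⟩ := hF (st q) (hFmem _ hq.2) q.1 hl (hst q hl).1 (sd q)
        (hsd1 q hl).1 (hsd1 q hl).2
      obtain ⟨l', hl', h1, h2⟩ := hC.edge _ _ (hadj i)
      exact ⟨l', fun _ _ => ⟨hl', t, ht, _, _, h1, h2, hi⟩⟩
    · exact ⟨⊤, fun h1 h2 => absurd ⟨h1, h2⟩ hq⟩
  choose φ hφ using hQ
  have hne : ∀ q ∈ R, st q ∉ F → q.1 ≠ φ q := by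
    intro q hq hqF he
    obtain ⟨hl', t, ht, x, y, hx, hy, hp⟩ := hφ q hq hqF
    have hl := hRmem q hq
    rw [← he] at hx hy
    exact hC.beyond hl (hsd1 q hl).2 (hsd1 q hl).1 (hst q hl) hx hy ht hp
  have hpt : ∀ q ∈ R, ∀ t : ℝ, f (st q) + t • sd q ∈ q.1 := by
    intro q hq t
    have hl := hRmem q hq
    have := AffineSubspace.vadd_mem_of_mem_direction
      (Submodule.smul_mem _ t (hsd1 q hl).1) (hst q hl).1
    simpa [add_comm] using this
  have hseg : ∀ (l : AffineSubspace ℝ E3) (x y : E3) (p : E3), x ∈ l → y ∈ l →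
      p ∈ segment ℝ x y → p ∈ l := by
    intro l x y p hx hy hp
    exact l.convex.segment_subset hx hy hp
  have hfree : ∀ q ∈ R, st q ∉ F → ∀ v, ¬ (f v ∈ q.1 ∧ f v ∈ φ q) := by
    intro q hq hqF v hv
    obtain ⟨hl', t, ht, x, y, hx, hy, hp⟩ := hφ q hq hqF
    have hl := hRmem q hq
    have h1 : f v = f (st q) + t • sd q := by
      by_contra hcon
      exact hne q hq hqF (line_eq (hC.line _ hl) (hC.line _ hl') hv.1 (hpt q hq t) hv.2
        (hseg _ _ _ _ hx hy hp) hcon)
    exact (hst q hl).2 v hv.1 t ht h1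
  have hB : 2 * (R.filter fun q => st q ∉ F).card ≤ (Free f L).card := by
    set B := R.filter fun q => st q ∉ F with hBdef
    have hBm : ∀ q ∈ B, q ∈ R ∧ st q ∉ F := fun q hq => Finset.mem_filter.1 hq
    have hcard : (B ×ˢ (Finset.univ : Finset Bool)).card = 2 * B.card := by
      rw [Finset.card_product]; simp [mul_comm]
    rw [← hcard]
    apply Finset.card_le_card_of_injOn
      (fun q => if q.2 then (q.1.1, φ q.1) else (φ q.1, q.1.1))
    · intro q hq
      rw [Finset.mem_coe, Finset.mem_product] at hq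
      obtain ⟨hqR, hqF⟩ := hBm _ hq.1
      obtain ⟨hl', -⟩ := hφ q.1 hqR hqF
      have hl := hRmem _ hqR
      rw [Finset.mem_coe]
      unfold Free
      rw [Finset.mem_filter, Finset.mem_offDiag]
      dsimp only
      split_ifs
      · exact ⟨⟨hl, hl', hne _ hqR hqF⟩, hfree _ hqR hqF⟩
      · exact ⟨⟨hl', hl, (hne _ hqR hqF).symm⟩, fun v hv => hfree _ hqR hqF v hv.symm⟩
    · -- injectivity
      have key1 : ∀ q ∈ B, ∀ q' ∈ B, q.1 = q'.1 → φ q = φ q' → q = q' := by
        rintro ⟨l, s⟩ hq ⟨l', s'⟩ hq' he hφe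
        simp only at he
        subst he
        obtain ⟨hqR, hqF⟩ := hBm _ hq
        obtain ⟨hqR', hqF'⟩ := hBm _ hq'
        have hl : l ∈ L := hRmem _ hqR
        obtain ⟨hl1, t1, ht1, x1, y1, hx1, hy1, hp1⟩ := hφ _ hqR hqF
        obtain ⟨hl2, t2, ht2, x2, y2, hx2, hy2, hp2⟩ := hφ _ hqR' hqF'
        have e1 : f (st (l, s)) + t1 • sd (l, s) = f (st (l, s')) + t2 • sd (l, s') := by
          by_contra hcon
          apply hne _ hqR hqF
          apply line_eq (hC.line _ hl) (hC.line _ hl1) (hpt _ hqR t1) (hpt _ hqR' t2)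
            (hseg _ _ _ _ hx1 hy1 hp1) _ hcon
          rw [hφe]
          exact hseg _ _ _ _ hx2 hy2 hp2
        by_cases hs : s = s'
        · rw [hs]
        · exfalso
          have hsd' : sd (l, s') = - sd (l, s) := by
            rw [hsd]; dsimp only
            cases s <;> cases s' <;> simp at hs ⊢
          rw [hsd'] at e1
          apply (hst (l, s) hl).2 (st (l, s')) (hst (l, s') hl).1 (t1 + t2) (by linarith)
          have : f (st (l, s')) = (f (st (l, s')) + t2 • -sd (l, s)) + t2 • sd (l, s) := by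
            module
          rw [this, ← e1]
          module
      have key2 : ∀ q ∈ B, ∀ q' ∈ B, q.1 = φ q' → φ q = q'.1 → False := by
        intro q hq q' hq' he he'
        obtain ⟨hqR, hqF⟩ := hBm _ hq
        obtain ⟨hqR', hqF'⟩ := hBm _ hq'
        have hl := hRmem _ hqR
        have hl' := hRmem _ hqR'
        obtain ⟨hl1, t1, ht1, x1, y1, hx1, hy1, hp1⟩ := hφ _ hqR hqF
        obtain ⟨hl2, t2, ht2, x2, y2, hx2, hy2, hp2⟩ := hφ _ hqR' hqF'
        have e1 : f (st q) + t1 • sd q = f (st q') + t2 • sd q' := by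
          by_contra hcon
          apply hne _ hqR hqF
          apply line_eq (hC.line _ hl) (hC.line _ hl1) (hpt _ hqR t1) _
            (hseg _ _ _ _ hx1 hy1 hp1) _ hcon
          · rw [he]; exact hseg _ _ _ _ hx2 hy2 hp2
          · rw [he']; exact hpt _ hqR' t2
        rw [e1] at hp1
        rw [he'] at hx1 hy1
        exact hC.beyond hl' (hsd1 q' hl').2 (hsd1 q' hl').1 (hst q' hl') hx1 hy1 ht2 hp1
      rintro ⟨q, s⟩ hq ⟨q', s'⟩ hq' he
      rw [Finset.mem_coe, Finset.mem_product] at hq hq'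
      cases s <;> cases s'
      · simp only [Bool.false_eq_true, if_false, Prod.mk.injEq] at he
        rw [key1 q hq.1 q' hq'.1 he.2 he.1]
      · simp only [Bool.false_eq_true, if_false, if_true, Prod.mk.injEq] at he
        exact (key2 q hq.1 q' hq'.1 he.2 he.1).elim
      · simp only [Bool.false_eq_true, if_false, if_true, Prod.mk.injEq] at he
        exact (key2 q hq.1 q' hq'.1 he.1 he.2).elim
      · simp only [if_true, Prod.mk.injEq] at he
        rw [key1 q hq.1 q' hq'.1 he.1 he.2]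
  -- conclusion
  have hsplit : (R.filter fun q => st q ∈ F).card + (R.filter fun q => st q ∉ F).card = R.card :=
    Finset.card_filter_add_card_filter_not _
  have hsum := hC.sum_le
  have hsumF : ∑ v, ((thr f L v).card * (thr f L v).card - (thr f L v).card) =
      ∑ v ∈ F, ((thr f L v).card * (thr f L v).card - (thr f L v).card) +
      ∑ v ∈ Fᶜ, ((thr f L v).card * (thr f L v).card - (thr f L v).card) :=
    (Finset.sum_add_sum_compl F _).symm
  have hFc : 30 ≤ ∑ v ∈ Fᶜ, ((thr f L v).card * (thr f L v).card - (thr f L v).card) := by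
    have h1 : (Fᶜ).card = 15 := by rw [Finset.card_compl, hFcard]; simp
    have h2 : (Fᶜ).card • 2 ≤ ∑ v ∈ Fᶜ, ((thr f L v).card * (thr f L v).card - (thr f L v).card) := by
      apply Finset.card_nsmul_le_sum
      intro v _
      have h3 := hC.two_le v
      have h4 : 2 * (thr f L v).card ≤ (thr f L v).card * (thr f L v).card :=
        Nat.mul_le_mul_right _ h3
      omega
    rw [h1] at h2
    simpa using h2
  have hfinal : 4 * L.card + 30 ≤ L.card * L.card - L.card := by omega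
  by_contra hcon
  have hlt : L.card ≤ 8 := by omega
  generalize L.card = n at hfinal hlt
  interval_cases n <;> omega

end Pool.Agent.A0dd0b
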