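import Pool.Agent.A0dd0b.Basic

namespace Pool.Agent.A0dd0b

/-- The coordinates of the drawing (a planar drawing, in the plane `z = 0`). -/
def P : Fin 20 → ℚ × ℚ :=
  ![(94003/4452900, 2839231/4452900), (44939/1700700, 89878/141725),
    (24061/855300, 41512/65573), (6811/7050, 239/9400), (616/19575, 18959/26100),
    (6629/120300, 111757/120300), (3413/100500, 6826/8375), (45701/2289300, 5644/7631),
    (49/2550, 2501/3400), (2989/937200, 81127/124960), (26243/1044000, 2339/3480),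
    (0, 0), (23/852, 46/71), (1, 0), (959/32400, 959/1350), (1987/34500, 32513/34500),
    (1/33, 8/11), (0, 1), (23/1131, 277/377), (0, 44939/69000)]

/-- Two vertices on each of the nine lines. -/
def base : Fin 9 → Fin 20 × Fin 20 :=
  ![(0, 5), (5, 15), (0, 1), (11, 13), (3, 4), (13, 15), (10, 12), (17, 19), (1, 11)]

def cr (A B C : ℚ × ℚ) : ℚ := (B.1 - A.1) * (C.2 - A.2) - (B.2 - A.2) * (C.1 - A.1)
def dt (A B C : ℚ × ℚ) : ℚ := (B.1 - A.1) * (C.1 - A.1) + (B.2 - A.2) * (C.2 - A.2)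

def sepBy (a b c d : ℚ) : Bool :=
  (decide (a < c) && decide (a < d) && decide (b < c) && decide (b < d)) ||
  (decide (c < a) && decide (d < a) && decide (c < b) && decide (d < b))

def okDisj (A B C D : ℚ × ℚ) : Bool :=
  (decide (0 < cr A B C) && decide (0 < cr A B D)) ||
  (decide (cr A B C < 0) && decide (cr A B D < 0)) ||
  (decide (0 < cr C D A) && decide (0 < cr C D B)) ||
  (decide (cr C D A < 0) && decide (cr C D B < 0)) ||
  sepBy A.1 B.1 C.1 D.1 || sepBy A.2 B.2 C.2 D.2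

def okShare (A B D : ℚ × ℚ) : Bool := decide (cr A B D ≠ 0) || decide (dt A B D < 0)

def okPair (e e' : Fin 20 × Fin 20) : Bool :=
  if e = e' then true
  else if e.1 = e'.1 then okShare (P e.1) (P e.2) (P e'.2)
  else if e.1 = e'.2 then okShare (P e.1) (P e.2) (P e'.1)
  else if e.2 = e'.1 then okShare (P e.2) (P e.1) (P e'.2)
  else if e.2 = e'.2 then okShare (P e.2) (P e.1) (P e'.1)
  else okDisj (P e.1) (P e.2) (P e'.1) (P e'.2)

theorem check_pairs : ∀ e ∈ edges, ∀ e' ∈ edges, okPair e e' = true := by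
  decide +kernel

theorem check_lines : ∀ e ∈ edges, ∃ i : Fin 9,
    cr (P (base i).1) (P (base i).2) (P e.1) = 0 ∧
    cr (P (base i).1) (P (base i).2) (P e.2) = 0 := by
  decide +kernel

theorem check_base : ∀ i : Fin 9, P (base i).1 ≠ P (base i).2 := by
  decide +kernel

/-! ### From the rational certificate to the drawing -/

/-- The plane `z = 0` in `ℝ³`. -/
noncomputable def emb (A : ℚ × ℚ) : E3 := !₂[(A.1 : ℝ), (A.2 : ℝ), 0]

/-- The drawing. -/
noncomputable def draw (v : Fin 20) : E3 := emb (P v)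

theorem mem_seg {A B : ℚ × ℚ} {p : E3} (h : p ∈ segment ℝ (emb A) (emb B)) :
    ∃ t : ℝ, 0 ≤ t ∧ t ≤ 1 ∧ p 0 = A.1 + t * (B.1 - A.1) ∧ p 1 = A.2 + t * (B.2 - A.2) ∧
      p 2 = 0 := by
  obtain ⟨a, b, ha, hb, hab, rfl⟩ := h
  have ha' : a = 1 - b := by linarith
  subst ha'
  refine ⟨b, hb, by linarith, ?_, ?_, ?_⟩
  · simp [emb]; ring
  · simp [emb]; ring
  · simp [emb]

theorem conv_pos {t x y : ℝ} (h0 : 0 ≤ t) (h1 : t ≤ 1) (hx : 0 < x) (hy : 0 < y) :
    0 < (1 - t) * x + t * y := by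
  rcases eq_or_lt_of_le h0 with h | h
  · subst h; simpa using hx
  · have := mul_pos h hy
    have := mul_nonneg (sub_nonneg.2 h1) hx.le
    linarith

theorem disj_aux {A B C D : ℚ × ℚ} {s t : ℝ} {p : E3}
    (h0 : 0 ≤ t) (h1 : t ≤ 1)
    (hp0 : p 0 = A.1 + s * (B.1 - A.1)) (hp1 : p 1 = A.2 + s * (B.2 - A.2))
    (hq0 : p 0 = C.1 + t * (D.1 - C.1)) (hq1 : p 1 = C.2 + t * (D.2 - C.2))
    (h : (0 < cr A B C ∧ 0 < cr A B D) ∨ (cr A B C < 0 ∧ cr A B D < 0)) : False := by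
  have key : (1 - t) * ((cr A B C : ℚ) : ℝ) + t * ((cr A B D : ℚ) : ℝ) = 0 := by
    unfold cr
    push_cast
    linear_combination ((B.1 : ℝ) - A.1) * (hq1.symm.trans hp1) -
      ((B.2 : ℝ) - A.2) * (hq0.symm.trans hp0)
  rcases h with ⟨h2, h3⟩ | ⟨h2, h3⟩
  · have h2' : (0 : ℝ) < ((cr A B C : ℚ) : ℝ) := by exact_mod_cast h2
    have h3' : (0 : ℝ) < ((cr A B D : ℚ) : ℝ) := by exact_mod_cast h3
    have := conv_pos h0 h1 h2' h3'
    linarith
  · have h2' : ((cr A B C : ℚ) : ℝ) < 0 := by exact_mod_cast h2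
    have h3' : ((cr A B D : ℚ) : ℝ) < 0 := by exact_mod_cast h3
    have := conv_pos h0 h1 (neg_pos.2 h2') (neg_pos.2 h3')
    linarith

theorem sep_aux {a b c d : ℚ} {s t q : ℝ} (hs0 : 0 ≤ s) (hs1 : s ≤ 1) (h0 : 0 ≤ t) (h1 : t ≤ 1)
    (hp : q = a + s * (b - a)) (hq : q = c + t * (d - c)) (h : sepBy a b c d = true) :
    False := by
  simp only [sepBy, Bool.or_eq_true, Bool.and_eq_true, decide_eq_true_eq] at h
  have key : (1 - s) * ((1 - t) * ((c : ℝ) - a) + t * ((d : ℝ) - a)) +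
      s * ((1 - t) * ((c : ℝ) - b) + t * ((d : ℝ) - b)) = 0 := by
    linear_combination hp - hq
  rcases h with ⟨⟨⟨h2, h3⟩, h4⟩, h5⟩ | ⟨⟨⟨h2, h3⟩, h4⟩, h5⟩
  · have h2' : (0 : ℝ) < (c : ℝ) - a := by rw [sub_pos]; exact_mod_cast h2
    have h3' : (0 : ℝ) < (d : ℝ) - a := by rw [sub_pos]; exact_mod_cast h3
    have h4' : (0 : ℝ) < (c : ℝ) - b := by rw [sub_pos]; exact_mod_cast h4
    have h5' : (0 : ℝ) < (d : ℝ) - b := by rw [sub_pos]; exact_mod_cast h5
    have := conv_pos hs0 hs1 (conv_pos h0 h1 h2' h3') (conv_pos h0 h1 h4' h5')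
    linarith
  · have h2' : (0 : ℝ) < (a : ℝ) - c := by rw [sub_pos]; exact_mod_cast h2
    have h3' : (0 : ℝ) < (a : ℝ) - d := by rw [sub_pos]; exact_mod_cast h3
    have h4' : (0 : ℝ) < (b : ℝ) - c := by rw [sub_pos]; exact_mod_cast h4
    have h5' : (0 : ℝ) < (b : ℝ) - d := by rw [sub_pos]; exact_mod_cast h5
    have := conv_pos hs0 hs1 (conv_pos h0 h1 h2' h3') (conv_pos h0 h1 h4' h5')
    linarith

theorem disj_of_ok {A B C D : ℚ × ℚ} (h : okDisj A B C D = true) {p : E3}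
    (hp : p ∈ segment ℝ (emb A) (emb B)) (hq : p ∈ segment ℝ (emb C) (emb D)) : False := by
  obtain ⟨s, hs0, hs1, hp0, hp1, -⟩ := mem_seg hp
  obtain ⟨t, ht0, ht1, hq0, hq1, -⟩ := mem_seg hq
  simp only [okDisj, Bool.or_eq_true, Bool.and_eq_true, decide_eq_true_eq] at h
  rcases h with ((((h | h) | h) | h) | h) | h
  · exact disj_aux ht0 ht1 hp0 hp1 hq0 hq1 (Or.inl h)
  · exact disj_aux ht0 ht1 hp0 hp1 hq0 hq1 (Or.inr h)
  · exact disj_aux hs0 hs1 hq0 hq1 hp0 hp1 (Or.inl h)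
  · exact disj_aux hs0 hs1 hq0 hq1 hp0 hp1 (Or.inr h)
  · exact sep_aux hs0 hs1 ht0 ht1 hp0 hq0 h
  · exact sep_aux hs0 hs1 ht0 ht1 hp1 hq1 h

theorem share_of_ok {A B D : ℚ × ℚ} (h : okShare A B D = true) {p : E3}
    (hp : p ∈ segment ℝ (emb A) (emb B)) (hq : p ∈ segment ℝ (emb A) (emb D)) : p = emb A := by
  obtain ⟨s, hs0, hs1, hp0, hp1, hp2⟩ := mem_seg hp
  obtain ⟨t, ht0, ht1, hq0, hq1, -⟩ := mem_seg hq
  simp only [okShare, Bool.or_eq_true, decide_eq_true_eq] at h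
  have fin : s = 0 → p = emb A := by
    intro hs
    ext i
    fin_cases i
    · simp [emb, hp0, hs]
    · simp [emb, hp1, hs]
    · simp [emb, hp2]
  have fin' : t = 0 → p = emb A := by
    intro ht
    ext i
    fin_cases i
    · simp [emb, hq0, ht]
    · simp [emb, hq1, ht]
    · simp [emb, hp2]
  have e0 : s * ((B.1 : ℝ) - A.1) = t * ((D.1 : ℝ) - A.1) := by linarith
  have e1 : s * ((B.2 : ℝ) - A.2) = t * ((D.2 : ℝ) - A.2) := by linarith
  rcases h with h | h
  · have h' : ((cr A B D : ℚ) : ℝ) ≠ 0 := by exact_mod_cast h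
    apply fin'
    have key : t * ((cr A B D : ℚ) : ℝ) = 0 := by
      unfold cr
      push_cast
      linear_combination ((B.2 : ℝ) - A.2) * e0 - ((B.1 : ℝ) - A.1) * e1
    rcases mul_eq_zero.1 key with h2 | h2
    · exact h2
    · exact absurd h2 h'
  · have h' : ((dt A B D : ℚ) : ℝ) < 0 := by exact_mod_cast h
    apply fin
    by_contra hs
    have hs' : 0 < s := lt_of_le_of_ne hs0 (Ne.symm hs)
    have key : s * (((B.1 : ℝ) - A.1) ^ 2 + ((B.2 : ℝ) - A.2) ^ 2) = t * ((dt A B D : ℚ) : ℝ) := by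
      unfold dt
      push_cast
      linear_combination ((B.1 : ℝ) - A.1) * e0 + ((B.2 : ℝ) - A.2) * e1
    have h1 : t * ((dt A B D : ℚ) : ℝ) ≤ 0 := mul_nonpos_of_nonneg_of_nonpos ht0 h'.le
    have h2 : ((B.1 : ℝ) - A.1) ^ 2 + ((B.2 : ℝ) - A.2) ^ 2 ≤ 0 := by
      by_contra h3
      push Not at h3
      have := mul_pos hs' h3
      linarith
    have hB1 : (B.1 : ℝ) - A.1 = 0 := by nlinarith [sq_nonneg ((B.1 : ℝ) - A.1), sq_nonneg ((B.2 : ℝ) - A.2)]
    have hB2 : (B.2 : ℝ) - A.2 = 0 := by nlinarith [sq_nonneg ((B.1 : ℝ) - A.1), sq_nonneg ((B.2 : ℝ) - A.2)]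
    have : ((dt A B D : ℚ) : ℝ) = 0 := by
      unfold dt
      push_cast
      rw [hB1, hB2]; ring
    linarith

theorem pair_of_ok {e e' : Fin 20 × Fin 20} (h : okPair e e' = true)
    (hne : s(e.1, e.2) ≠ s(e'.1, e'.2)) {p : E3}
    (hp : p ∈ segment ℝ (draw e.1) (draw e.2)) (hq : p ∈ segment ℝ (draw e'.1) (draw e'.2)) :
    ∃ w, (w = e.1 ∨ w = e.2) ∧ (w = e'.1 ∨ w = e'.2) ∧ p = draw w := by
  unfold okPair at h
  unfold draw at hp hq
  split_ifs at h with h1 h2 h3 h4 h5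
  · exact absurd (by rw [h1]) hne
  · refine ⟨e.1, Or.inl rfl, Or.inl h2, share_of_ok h hp ?_⟩
    rw [h2]; exact hq
  · refine ⟨e.1, Or.inl rfl, Or.inr h3, share_of_ok h hp ?_⟩
    rw [h3, segment_symm]; exact hq
  · refine ⟨e.2, Or.inr rfl, Or.inl h4, share_of_ok h (by rw [segment_symm]; exact hp) ?_⟩
    rw [h4]; exact hq
  · refine ⟨e.2, Or.inr rfl, Or.inr h5, share_of_ok h (by rw [segment_symm]; exact hp) ?_⟩
    rw [h5, segment_symm]; exact hq
  · exact (disj_of_ok h hp hq).elim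

theorem P_injective : Function.Injective P := by
  intro u v
  revert u v
  decide +kernel

theorem emb_injective : Function.Injective emb := by
  intro A B h
  have h0 := congrArg (fun p : E3 => p 0) h
  have h1 := congrArg (fun p : E3 => p 1) h
  simp [emb] at h0 h1
  exact Prod.ext h0 h1

theorem draw_injective : Function.Injective draw := emb_injective.comp P_injective

theorem draw_cross (u v x y : Fin 20) (huv : dodecahedron.Adj u v) (hxy : dodecahedron.Adj x y)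
    (hne : s(u, v) ≠ s(x, y)) (p : E3) (hp : p ∈ segment ℝ (draw u) (draw v))
    (hq : p ∈ segment ℝ (draw x) (draw y)) :
    ∃ w, (w = u ∨ w = v) ∧ (w = x ∨ w = y) ∧ p = draw w := by
  rw [adj_iff] at huv hxy
  rcases huv with h1 | h1 <;> rcases hxy with h2 | h2
  · exact pair_of_ok (check_pairs _ h1 _ h2) hne hp hq
  · obtain ⟨w, a, b, c⟩ := pair_of_ok (check_pairs _ h1 _ h2)
      (by simpa [Sym2.eq_swap] using (show s(u, v) ≠ s(y, x) by rw [Sym2.eq_swap (a := y)]; exact hne))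
      hp (by rw [segment_symm]; exact hq)
    exact ⟨w, a, b.symm, c⟩
  · obtain ⟨w, a, b, c⟩ := pair_of_ok (check_pairs _ h1 _ h2)
      (show s(v, u) ≠ s(x, y) by rw [Sym2.eq_swap (a := v)]; exact hne)
      (by rw [segment_symm]; exact hp) hq
    exact ⟨w, a.symm, b, c⟩
  · obtain ⟨w, a, b, c⟩ := pair_of_ok (check_pairs _ h1 _ h2)
      (show s(v, u) ≠ s(y, x) by rw [Sym2.eq_swap (a := v), Sym2.eq_swap (a := y)]; exact hne)
      (by rw [segment_symm]; exact hp) (by rw [segment_symm]; exact hq)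
    exact ⟨w, a.symm, b.symm, c⟩

theorem draw_isDrawing : IsDrawing dodecahedron draw := by
  refine ⟨draw_injective, draw_cross, ?_⟩
  intro u v w huv hw
  have hex : ∀ w : Fin 20, ∃ x, dodecahedron.Adj w x := by decide +kernel
  obtain ⟨x, hx⟩ := hex w
  by_cases h : s(u, v) = s(w, x)
  · rw [Sym2.eq_iff] at h
    rcases h with ⟨h1, -⟩ | ⟨-, h1⟩
    · exact Or.inl h1.symm
    · exact Or.inr h1.symm
  · obtain ⟨w', h1, -, h2⟩ := draw_cross u v w x huv hx h (draw w) hw (left_mem_segment ℝ _ _)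
    rw [draw_injective h2]
    exact h1

/-- The nine lines. -/
noncomputable def line (i : Fin 9) : AffineSubspace ℝ E3 :=
  AffineSubspace.mk' (draw (base i).1) (Submodule.span ℝ {draw (base i).2 - draw (base i).1})

theorem finrank_line (i : Fin 9) : Module.finrank ℝ (line i).direction = 1 := by
  unfold line
  rw [AffineSubspace.direction_mk']
  apply finrank_span_singleton
  rw [sub_ne_zero]
  intro h
  exact check_base i (emb_injective h).symm

theorem mem_line {i : Fin 9} {v : Fin 20}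
    (h : cr (P (base i).1) (P (base i).2) (P v) = 0) : draw v ∈ line i := by
  have hne := check_base i
  unfold line draw
  generalize P (base i).1 = A at h hne ⊢
  generalize P (base i).2 = B at h hne ⊢
  generalize P v = C at h ⊢
  rw [AffineSubspace.mem_mk', vsub_eq_sub, Submodule.mem_span_singleton]
  have h' : ((B.1 : ℝ) - A.1) * (C.2 - A.2) - (B.2 - A.2) * (C.1 - A.1) = 0 := by
    have : ((cr A B C : ℚ) : ℝ) = 0 := by exact_mod_cast h
    rw [← this]; unfold cr; push_cast; ring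
  set q : ℝ := ((B.1 : ℝ) - A.1) ^ 2 + ((B.2 : ℝ) - A.2) ^ 2 with hq
  have hq0 : q ≠ 0 := by
    intro hq0
    apply hne
    have h1 : (B.1 : ℝ) - A.1 = 0 := by nlinarith [sq_nonneg ((B.1 : ℝ) - A.1), sq_nonneg ((B.2 : ℝ) - A.2)]
    have h2 : (B.2 : ℝ) - A.2 = 0 := by nlinarith [sq_nonneg ((B.1 : ℝ) - A.1), sq_nonneg ((B.2 : ℝ) - A.2)]
    have h1' : (A.1 : ℝ) = B.1 := by linarith
    have h2' : (A.2 : ℝ) = B.2 := by linarith
    exact Prod.ext (by exact_mod_cast h1') (by exact_mod_cast h2')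
  refine ⟨(((B.1 : ℝ) - A.1) * (C.1 - A.1) + (B.2 - A.2) * (C.2 - A.2)) / q, ?_⟩
  ext i
  fin_cases i
  · simp only [emb]
    simp
    field_simp
    rw [hq]
    linear_combination ((B.2 : ℝ) - A.2) * h'
  · simp only [emb]
    simp
    field_simp
    rw [hq]
    linear_combination (-((B.1 : ℝ) - A.1)) * h'
  · simp [emb]

theorem draw_covered : CoveredBy dodecahedron draw 9 := by
  refine ⟨line, finrank_line, ?_⟩
  intro u v huv
  have hmain : ∀ e ∈ edges, segment ℝ (draw e.1) (draw e.2) ⊆ ⋃ i, (line i : Set E3) := by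
    intro e he
    obtain ⟨i, h1, h2⟩ := check_lines e he
    refine Set.Subset.trans ?_ (Set.subset_iUnion _ i)
    exact (line i).convex.segment_subset (mem_line h1) (mem_line h2)
  rw [adj_iff] at huv
  rcases huv with h | h
  · exact hmain (u, v) h
  · rw [segment_symm]; exact hmain (v, u) h

theorem upper : rho31 dodecahedron ≤ 9 :=
  Nat.sInf_le ⟨draw, draw_isDrawing, draw_covered⟩

end Pool.Agent.A0dd0b
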