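import Pool.Agent.A0dd0b.Count
import Pool.Agent.A0dd0b.Upper

/-!
# The lower bound
-/

namespace Pool.Agent.A0dd0b

open Classical

variable {f : Fin 20 → E3} {L : Finset (AffineSubspace ℝ E3)}

theorem sub_mem_vs (f : Fin 20 → E3) (u v : Fin 20) :
    f u - f v ∈ vectorSpan ℝ (Set.range f) := by
  simpa using vsub_mem_vectorSpan ℝ (Set.mem_range_self (f := f) u) (Set.mem_range_self v)

theorem seg_sub_mem (f : Fin 20 → E3) {u v w : Fin 20} {p : E3}
    (hp : p ∈ segment ℝ (f u) (f v)) : p - f w ∈ vectorSpan ℝ (Set.range f) := by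
  obtain ⟨a, b, -, -, hab, rfl⟩ := hp
  have : a • f u + b • f v - f w = a • (f u - f w) + b • (f v - f w) := by
    have h : a • (f u - f w) + b • (f v - f w) = a • f u + b • f v - (a + b) • f w := by module
    rw [h, hab, one_smul]
  rw [this]
  exact Submodule.add_mem _ (Submodule.smul_mem _ _ (sub_mem_vs f _ _))
    (Submodule.smul_mem _ _ (sub_mem_vs f _ _))

theorem Cover.planar (hC : Cover f L)
    (h2 : Module.finrank ℝ (vectorSpan ℝ (Set.range f)) ≤ 2) : 9 ≤ L.card := by
  set vs := vectorSpan ℝ (Set.range f) with hvs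
  have hrank : Module.rank ℝ vs ≤ Module.rank ℝ ℂ := by
    rw [← Module.finrank_eq_rank, ← Module.finrank_eq_rank, Complex.finrank_real_complex]
    exact_mod_cast h2
  obtain ⟨T₀, hT₀⟩ := rank_le_iff_exists_linearMap.1 hrank
  obtain ⟨T, hT⟩ := T₀.exists_extend
  have hTi : ∀ x ∈ vs, T x = 0 → x = 0 := by
    intro x hx h0
    have h1 : T x = T₀ ⟨x, hx⟩ := by
      have := congrArg (fun F => F (⟨x, hx⟩ : vs)) hT
      simpa using this
    rw [h1] at h0
    have := hT₀ (h0.trans (map_zero T₀).symm)
    exact congrArg Subtype.val this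
  have hTeq : ∀ x y : E3, x - y ∈ vs → T x = T y → x = y := by
    intro x y hxy h
    have := hTi (x - y) hxy (by rw [map_sub, h, sub_self])
    exact sub_eq_zero.1 this
  set g : Fin 20 → ℂ := fun v => T (f v) with hg
  have hlift : ∀ u v p, p ∈ segment ℝ (g u) (g v) → ∃ q ∈ segment ℝ (f u) (f v), T q = p := by
    rintro u v p ⟨a, b, ha, hb, hab, rfl⟩
    exact ⟨a • f u + b • f v, ⟨a, b, ha, hb, hab, rfl⟩, by simp [hg]⟩
  have hdiff : ∀ u v x y p q, p ∈ segment ℝ (f u) (f v) → q ∈ segment ℝ (f x) (f y) →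
      p - q ∈ vs := by
    intro u v x y p q hp hq
    have h1 := seg_sub_mem f (w := 0) hp
    have h2 := seg_sub_mem f (w := 0) hq
    have := Submodule.sub_mem _ h1 h2
    simpa using this
  have hd : IsDrawing dodecahedron g := by
    refine ⟨?_, ?_, ?_⟩
    · intro u v huv
      exact hC.draw.inj (hTeq _ _ (sub_mem_vs f u v) huv)
    · intro u v x y huv hxy hne p hp hq
      obtain ⟨p', hp', e⟩ := hlift _ _ _ hp
      obtain ⟨q', hq', e'⟩ := hlift _ _ _ hq
      have : p' = q' := hTeq _ _ (hdiff _ _ _ _ _ _ hp' hq') (e.trans e'.symm)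
      subst this
      obtain ⟨w, h1, h2, h3⟩ := hC.draw.cross u v x y huv hxy hne p' hp' hq'
      exact ⟨w, h1, h2, by rw [← e, h3]⟩
    · intro u v w huv hw
      obtain ⟨q, hq, e⟩ := hlift _ _ _ hw
      have : q = f w := hTeq _ _ (hdiff _ _ _ _ _ _ hq (left_mem_segment ℝ (f w) (f w))) e
      subst this
      exact hC.draw.vertex u v w huv hq
  obtain ⟨cyc, hinj, hadj, hF⟩ := planar_face hd
  refine hC.card_ge_of_face hinj hadj ?_
  intro v hv l hl hvl d hdl hd0
  obtain ⟨x, y, hxy, hx, hy⟩ := hC.used l hl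
  have hxy0 : f x - f y ≠ 0 := sub_ne_zero.2 fun h => hxy.ne (hC.draw.inj h)
  have hxyd : f x - f y ∈ l.direction := by
    simpa using AffineSubspace.vsub_mem_direction hx hy
  have hdvs : d ∈ vs := by
    have hq : f v + d ∈ l := by
      have := AffineSubspace.vadd_mem_of_mem_direction hdl hvl
      simpa [add_comm] using this
    obtain ⟨s, hs⟩ := exists_coef (hC.line l hl) hxyd hxy0 hvl hq
    have : d = s • (f x - f y) := add_left_cancel hs
    rw [this]
    exact Submodule.smul_mem _ _ (sub_mem_vs f _ _)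
  have hTd : T d ≠ 0 := fun h => hd0 (hTi d hdvs h)
  obtain ⟨t, ht, i, hi⟩ := hF v hv (T d) hTd
  refine ⟨t, ht, i, ?_⟩
  obtain ⟨q, hq, e⟩ := hlift _ _ _ hi
  have : q = f v + t • d := by
    apply hTeq
    · have h1 := seg_sub_mem f (w := v) hq
      have h2 : q - (f v + t • d) = (q - f v) - t • d := by abel
      rw [h2]
      exact Submodule.sub_mem _ h1 (Submodule.smul_mem _ _ hdvs)
    · rw [e, map_add, map_smul]
  rw [← this]; exact hq

/-- The extreme vertices of the drawing. -/
noncomputable def ext (f : Fin 20 → E3) : Finset (Fin 20) :=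
  Finset.univ.filter fun v => f v ∈ (convexHull ℝ (Set.range f)).extremePoints ℝ

theorem four_le_ext (h : ¬ Module.finrank ℝ (vectorSpan ℝ (Set.range f)) ≤ 2) :
    4 ≤ (ext f).card := by
  by_contra hcon
  apply h
  set K := convexHull ℝ (Set.range f) with hK
  have hcomp : IsCompact K := Set.Finite.isCompact_convexHull (𝕜 := ℝ) (Set.finite_range f)
  have hKM := closure_convexHull_extremePoints hcomp (convex_convexHull ℝ _)
  have hX : K.extremePoints ℝ ⊆ f '' (ext f : Set (Fin 20)) := by
    intro x hx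
    obtain ⟨v, rfl⟩ := extremePoints_convexHull_subset hx
    exact ⟨v, by simp [ext, hx, hK.symm], rfl⟩
  set S := affineSpan ℝ (f '' (ext f : Set (Fin 20))) with hS
  have hKS : K ⊆ S := by
    rw [← hKM]
    apply closure_minimal
    · apply convexHull_min _ S.convex
      exact hX.trans (subset_affineSpan ℝ _)
    · exact S.closed_of_finiteDimensional
  have hvs : vectorSpan ℝ (Set.range f) ≤ S.direction := by
    rw [vectorSpan_def, Submodule.span_le]
    rintro _ ⟨p, hp, q, hq, rfl⟩
    exact AffineSubspace.vsub_mem_direction (hKS (subset_convexHull ℝ _ hp))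
      (hKS (subset_convexHull ℝ _ hq))
  refine le_trans (Submodule.finrank_mono hvs) ?_
  rw [hS, direction_affineSpan]
  rcases Nat.eq_zero_or_pos (ext f).card with h0 | h0
  · rw [Finset.card_eq_zero] at h0
    have h1 : (f '' (ext f : Set (Fin 20))) = ∅ := by rw [h0]; simp
    rw [h1, vectorSpan_empty, finrank_bot]
    omega
  · have h1 := finrank_vectorSpan_image_finset_le ℝ f (ext f) (n := (ext f).card - 1) (by omega)
    rw [Finset.coe_image] at h1
    omega

theorem Cover.three_le_of_ext (hC : Cover f L) {v : Fin 20} (hv : v ∈ ext f) :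
    3 ≤ (thr f L v).card := by
  by_contra hcon
  obtain ⟨l, hl, hvl, a, b, hva, hvb, hab, ha, hb⟩ := hC.exists_pass (v := v) (by omega)
  obtain ⟨r, hr, e⟩ := hC.opposite hl hva hvb hab hvl ha hb
  unfold ext at hv
  rw [Finset.mem_filter] at hv
  have h1 : f v ∈ openSegment ℝ (f a) (f b) := by
    have hr1 : (0 : ℝ) < 1 + r := by linarith
    refine ⟨r / (1 + r), 1 / (1 + r), by positivity, by positivity, by field_simp; ring, ?_⟩
    have h2 : (1 + r) • f v = r • f a + f b := by
      have h3 : f b = f v - r • (f a - f v) := by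
        have h5 : f b = f v + (f b - f v) := by abel
        rw [h5, e]; abel
      rw [h3]; module
    have h4 : f v = (1 / (1 + r)) • ((1 + r) • f v) := by
      rw [smul_smul, one_div, inv_mul_cancel₀ hr1.ne', one_smul]
    rw [h4, h2, smul_add, smul_smul]
    congr 2
    ring
  have h2 := hv.2.2 (subset_convexHull ℝ _ (Set.mem_range_self a))
    (subset_convexHull ℝ _ (Set.mem_range_self b)) h1
  exact hva.ne (hC.draw.inj h2).symm

theorem Cover.nonplanar (hC : Cover f L)
    (h : ¬ Module.finrank ℝ (vectorSpan ℝ (Set.range f)) ≤ 2) : 9 ≤ L.card := by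
  have h4 := four_le_ext h
  set lb : Fin 20 → ℕ := fun v => if v ∈ ext f then 6 else 2 with hlb
  have hlb_le : ∀ v, lb v ≤ (thr f L v).card * (thr f L v).card - (thr f L v).card := by
    intro v
    rw [hlb]; dsimp only
    split_ifs with hv
    · have h3 := hC.three_le_of_ext hv
      have h5 : 3 * (thr f L v).card ≤ (thr f L v).card * (thr f L v).card :=
        Nat.mul_le_mul_right _ h3
      omega
    · have h3 := hC.two_le v
      have h5 : 2 * (thr f L v).card ≤ (thr f L v).card * (thr f L v).card :=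
        Nat.mul_le_mul_right _ h3
      omega
  have hlbsum : 56 ≤ ∑ v, lb v := by
    have h5 : ∀ v, lb v = 2 + (if v ∈ ext f then 4 else 0) := by
      intro v; rw [hlb]; dsimp only; split_ifs <;> rfl
    rw [Finset.sum_congr rfl (fun v _ => h5 v), Finset.sum_add_distrib]
    rw [Finset.sum_ite_mem]
    simp
    omega
  have hsum := hC.sum_le
  by_contra hcon
  have hle : L.card ≤ 8 := by omega
  have hsum2 : 56 ≤ ∑ v, ((thr f L v).card * (thr f L v).card - (thr f L v).card) :=
    le_trans hlbsum (Finset.sum_le_sum fun v _ => hlb_le v)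
  have hcard8 : L.card = 8 := by
    generalize L.card = n at hsum hle hsum2
    interval_cases n <;> omega
  rw [hcard8] at hsum
  have hfree : Free f L = ∅ := by
    rw [← Finset.card_eq_zero]; omega
  have hsum3 : ∑ v, ((thr f L v).card * (thr f L v).card - (thr f L v).card) ≤ 56 := by omega
  have hle3 : ∀ v, (thr f L v).card ≤ 3 := by
    intro v
    by_contra hv
    have hlt : ∑ v, lb v <
        ∑ v, ((thr f L v).card * (thr f L v).card - (thr f L v).card) := by
      apply Finset.sum_lt_sum (fun v _ => hlb_le v)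
      refine ⟨v, Finset.mem_univ _, ?_⟩
      have h5 : 4 ≤ (thr f L v).card := by omega
      have h6 : 4 * (thr f L v).card ≤ (thr f L v).card * (thr f L v).card :=
        Nat.mul_le_mul_right _ h5
      have h7 : lb v ≤ 6 := by rw [hlb]; dsimp only; split_ifs <;> omega
      omega
    omega
  -- every two lines share a vertex
  have hshare : ∀ l ∈ L, ∀ l' ∈ L, l ≠ l' → ∃ v, f v ∈ l ∧ f v ∈ l' := by
    intro l hl l' hl' hne
    by_contra hcon
    push Not at hcon
    have : (l, l') ∈ Free f L := by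
      unfold Free
      rw [Finset.mem_filter, Finset.mem_offDiag]
      exact ⟨⟨hl, hl', hne⟩, fun v hv => hcon v hv.1 hv.2⟩
    rw [hfree] at this
    simp at this
  obtain ⟨l1, hl1, l2, hl2, h12⟩ := Finset.one_lt_card.1 (by omega : 1 < L.card)
  obtain ⟨v0, hv1, hv2⟩ := hshare l1 hl1 l2 hl2 h12
  set Wd := l1.direction ⊔ l2.direction with hWd
  have hWfin : Module.finrank ℝ Wd ≤ 2 := by
    have h5 := Submodule.finrank_add_le_finrank_add_finrank l1.direction l2.direction
    rw [hC.line l1 hl1, hC.line l2 hl2] at h5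
    exact h5
  have hdirmem : ∀ l : AffineSubspace ℝ E3, f v0 ∈ l → ∀ p ∈ l, p - f v0 ∈ l.direction := by
    intro l h5 p hp
    simpa using AffineSubspace.vsub_mem_direction hp h5
  -- lines not through `f v0`
  have hA : ∀ l ∈ L, f v0 ∉ l → ∀ p ∈ l, p - f v0 ∈ Wd := by
    intro l hl hv0 p hp
    have n1 : l ≠ l1 := fun e => hv0 (e ▸ hv1)
    have n2 : l ≠ l2 := fun e => hv0 (e ▸ hv2)
    obtain ⟨a, ha, ha1⟩ := hshare l hl l1 hl1 n1
    obtain ⟨b, hb, hb2⟩ := hshare l hl l2 hl2 n2
    have hab : f a ≠ f b := by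
      intro e
      rw [← e] at hb2
      have : f a ≠ f v0 := fun e' => hv0 (e' ▸ ha)
      exact h12 (line_eq (hC.line _ hl1) (hC.line _ hl2) ha1 hv1 hb2 hv2 this)
    have haW : f a - f v0 ∈ Wd := Submodule.mem_sup_left (hdirmem l1 hv1 _ ha1)
    have hbW : f b - f v0 ∈ Wd := Submodule.mem_sup_right (hdirmem l2 hv2 _ hb2)
    have hd : f b - f a ∈ l.direction := by
      simpa using AffineSubspace.vsub_mem_direction hb ha
    obtain ⟨s, hs⟩ := exists_coef (hC.line l hl) hd (sub_ne_zero.2 hab.symm) ha hp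
    have : p - f v0 = (f a - f v0) + s • ((f b - f v0) - (f a - f v0)) := by
      rw [hs]; module
    rw [this]
    exact Submodule.add_mem _ haW (Submodule.smul_mem _ _ (Submodule.sub_mem _ hbW haW))
  have hB : ∀ l ∈ L, ∀ p ∈ l, p - f v0 ∈ Wd := by
    intro l hl p hp
    by_cases hv0 : f v0 ∈ l
    · obtain ⟨l4, hl4, hl4'⟩ : ∃ l4 ∈ L, l4 ∉ thr f L v0 := by
        by_contra hcon
        push Not at hcon
        have := Finset.card_le_card (show L ⊆ thr f L v0 from hcon)
        have := hle3 v0
        omega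
      have hv4 : f v0 ∉ l4 := fun h5 => hl4' (mem_thr.2 ⟨hl4, h5⟩)
      have n4 : l ≠ l4 := fun e => hv4 (e ▸ hv0)
      obtain ⟨a, ha, ha4⟩ := hshare l hl l4 hl4 n4
      have haW := hA l4 hl4 hv4 _ ha4
      have hne : f a - f v0 ≠ 0 := by
        rw [sub_ne_zero]; intro e; exact hv4 (e ▸ ha4)
      obtain ⟨s, hs⟩ := exists_coef (hC.line l hl) (hdirmem l hv0 _ ha) hne hv0 hp
      rw [hs, add_sub_cancel_left]
      exact Submodule.smul_mem _ _ haW
    · exact hA l hl hv0 p hp
  apply h
  refine le_trans (Submodule.finrank_mono ?_) hWfin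
  rw [vectorSpan_def, Submodule.span_le]
  have hC' : ∀ v, f v - f v0 ∈ Wd := by
    intro v
    obtain ⟨x₁, x₂, x₃, hx, -⟩ := nb_three v
    obtain ⟨l, hl, hvl, -⟩ := hC.edge v x₁ ((nb_iff _ _).2 (by rw [hx]; simp))
    exact hB l hl _ hvl
  rintro _ ⟨_, ⟨u, rfl⟩, _, ⟨v, rfl⟩, rfl⟩
  have := Submodule.sub_mem _ (hC' u) (hC' v)
  simpa using this

theorem Cover.nine_le (hC : Cover f L) : 9 ≤ L.card := by
  by_cases h : Module.finrank ℝ (vectorSpan ℝ (Set.range f)) ≤ 2
  · exact hC.planar h
  · exact hC.nonplanar h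

theorem lower {f : Fin 20 → E3} (hd : IsDrawing dodecahedron f) {k : ℕ}
    (hk : CoveredBy dodecahedron f k) : 9 ≤ k := by
  obtain ⟨Ln, hLn, hcov⟩ := hk
  set L : Finset (AffineSubspace ℝ E3) := (Finset.univ.image Ln).filter fun l =>
    ∃ u v, dodecahedron.Adj u v ∧ f u ∈ l ∧ f v ∈ l with hL
  have hLk : L.card ≤ k := by
    calc L.card ≤ (Finset.univ.image Ln).card := Finset.card_filter_le _ _
      _ ≤ (Finset.univ : Finset (Fin k)).card := Finset.card_image_le
      _ = k := by simp
  have hC : Cover f L := by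
    refine ⟨hd, ?_, ?_, ?_⟩
    · intro l hl
      rw [hL, Finset.mem_filter, Finset.mem_image] at hl
      obtain ⟨⟨i, -, rfl⟩, -⟩ := hl
      exact hLn i
    · intro u v huv
      have hne : f u ≠ f v := fun h => huv.ne (hd.inj h)
      set p : ℕ → E3 := fun n => f u + (1 / ((n : ℝ) + 1)) • (f v - f u) with hp
      have hps : ∀ n, p n ∈ segment ℝ (f u) (f v) := by
        intro n
        have h1 : (0 : ℝ) < (n : ℝ) + 1 := by positivity
        refine ⟨1 - 1 / ((n : ℝ) + 1), 1 / ((n : ℝ) + 1), ?_, by positivity, by ring, ?_⟩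
        · rw [sub_nonneg, div_le_one h1]; linarith [(Nat.cast_nonneg n : (0 : ℝ) ≤ n)]
        · rw [hp]; module
      have hidx : ∀ n, ∃ i, p n ∈ Ln i := by
        intro n
        have := hcov u v huv (hps n)
        rw [Set.mem_iUnion] at this
        exact this
      choose idx hidx using hidx
      obtain ⟨m, n, hmn, he⟩ := Finite.exists_ne_map_eq_of_infinite idx
      have hm := hidx m
      have hn := hidx n
      rw [← he] at hn
      have hdiff : p m - p n ∈ (Ln (idx m)).direction := by
        simpa using AffineSubspace.vsub_mem_direction hm hn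
      set c : ℝ := 1 / ((m : ℝ) + 1) - 1 / ((n : ℝ) + 1) with hc
      have hc0 : c ≠ 0 := by
        rw [hc, sub_ne_zero]
        intro h1
        rw [div_eq_div_iff (by positivity) (by positivity)] at h1
        apply hmn
        have : (m : ℝ) = n := by linarith
        exact_mod_cast this
      have hpe : p m - p n = c • (f v - f u) := by
        rw [hp, hc]; module
      rw [hpe] at hdiff
      have hdir : f v - f u ∈ (Ln (idx m)).direction := by
        have := Submodule.smul_mem _ c⁻¹ hdiff
        rwa [smul_smul, inv_mul_cancel₀ hc0, one_smul] at this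
      have hmove : ∀ s : ℝ, f u + s • (f v - f u) ∈ Ln (idx m) := by
        intro s
        have h1 := AffineSubspace.vadd_mem_of_mem_direction
          (Submodule.smul_mem _ (s - 1 / ((m : ℝ) + 1)) hdir) hm
        have h2 : (s - 1 / ((m : ℝ) + 1)) • (f v - f u) +ᵥ p m = f u + s • (f v - f u) := by
          rw [vadd_eq_add, hp]; module
        rwa [h2] at h1
      have hu : f u ∈ Ln (idx m) := by simpa using hmove 0
      have hv : f v ∈ Ln (idx m) := by simpa using hmove 1
      refine ⟨Ln (idx m), ?_, hu, hv⟩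
      rw [hL, Finset.mem_filter, Finset.mem_image]
      exact ⟨⟨idx m, Finset.mem_univ _, rfl⟩, u, v, huv, hu, hv⟩
    · intro l hl
      rw [hL, Finset.mem_filter] at hl
      exact hl.2
  exact le_trans hC.nine_le hLk

theorem rho31_dodecahedron : rho31 dodecahedron = 9 := by
  apply le_antisymm upper
  have hne : {k : ℕ | ∃ f : Fin 20 → E3, IsDrawing dodecahedron f ∧
      CoveredBy dodecahedron f k}.Nonempty := ⟨9, draw, draw_isDrawing, draw_covered⟩
  apply le_csInf hne
  rintro k ⟨f, hd, hk⟩
  exact lower hd hk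

end Pool.Agent.A0dd0b
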