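import Mathlib

/-!
# Winding sums of closed polygons in the complex plane

For a closed polygon `v : Fin n → ℂ` (vertices `v i`, edges `[v i, v (i+1)]`, indices mod `n`) and a
point `p` we consider `W v p = ∑ arg ((v (i+1) - p) / (v i - p))`. -/

namespace Pool.Agent.A0dd0b

open Complex Filter Topology

variable {n : ℕ} [NeZero n]

/-- The closed polygon as a point set. -/
def poly (v : Fin n → ℂ) : Set ℂ := ⋃ i, segment ℝ (v i) (v (i + 1))

noncomputable def W (v : Fin n → ℂ) (p : ℂ) : ℝ :=
  ∑ i, Complex.arg ((v (i + 1) - p) / (v i - p))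

theorem not_mem_seg_of_poly {v : Fin n → ℂ} {p : ℂ} (hp : p ∉ poly v) (i : Fin n) :
    p ∉ segment ℝ (v i) (v (i + 1)) := fun h => hp (Set.mem_iUnion.2 ⟨i, h⟩)

theorem slit_of_not_mem {a b p : ℂ} (h : p ∉ segment ℝ a b) :
    (b - p) / (a - p) ∈ Complex.slitPlane := by
  have ha : a - p ≠ 0 := by
    intro h0
    apply h
    rw [← sub_eq_zero.1 h0]
    exact left_mem_segment ℝ _ _
  by_contra hs
  rw [Complex.mem_slitPlane_iff] at hs
  push Not at hs
  obtain ⟨h1, h2⟩ := hs
  apply h
  set r := (b - p) / (a - p) with hr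
  have hr' : r = ((r.re : ℝ) : ℂ) := Complex.ext (by simp) (by simp [h2])
  have hb : b - p = r * (a - p) := by rw [hr]; field_simp
  set s : ℝ := -r.re with hs
  have hs0 : 0 ≤ s := by linarith
  have h1s : (0 : ℝ) < 1 + s := by linarith
  refine ⟨s / (1 + s), 1 / (1 + s), by positivity, by positivity, ?_, ?_⟩
  · field_simp; ring
  · have hb' : b = p - (s : ℂ) * (a - p) := by
      have : r = -((s : ℝ) : ℂ) := by rw [hs]; push_cast; rw [neg_neg]; exact hr'
      rw [this] at hb
      linear_combination hb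
    have h1s' : (1 + (s : ℂ)) ≠ 0 := by exact_mod_cast h1s.ne'
    rw [hb']
    simp only [Complex.real_smul]
    push_cast
    field_simp
    ring

theorem continuousAt_arg_term {a b p : ℂ} (h : p ∉ segment ℝ a b) :
    ContinuousAt (fun q => Complex.arg ((b - q) / (a - q))) p := by
  have ha : a - p ≠ 0 := by
    intro h0
    apply h
    rw [← sub_eq_zero.1 h0]
    exact left_mem_segment ℝ _ _
  have h1 : ContinuousAt (fun q => (b - q) / (a - q)) p :=
    ContinuousAt.div (by fun_prop) (by fun_prop) ha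
  exact ContinuousAt.comp (f := fun q => (b - q) / (a - q)) (g := Complex.arg)
    (Complex.continuousAt_arg (slit_of_not_mem h)) h1

theorem continuousAt_W {v : Fin n → ℂ} {p : ℂ} (hp : p ∉ poly v) : ContinuousAt (W v) p := by
  unfold W
  apply tendsto_finsetSum
  intro i _
  exact continuousAt_arg_term (not_mem_seg_of_poly hp i)

theorem W_int {v : Fin n → ℂ} {p : ℂ} (hp : p ∉ poly v) :
    ∃ m : ℤ, W v p = 2 * Real.pi * m := by
  have hne : ∀ i, v i - p ≠ 0 := by
    intro i h0
    apply not_mem_seg_of_poly hp i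
    rw [← sub_eq_zero.1 h0]
    exact left_mem_segment ℝ _ _
  have h1 : Complex.exp ((W v p : ℂ) * Complex.I) = 1 := by
    unfold W
    push_cast
    rw [Finset.sum_mul, Complex.exp_sum]
    have h2 : ∀ i, Complex.exp ((Complex.arg ((v (i + 1) - p) / (v i - p)) : ℂ) * Complex.I) =
        ((v (i + 1) - p) / (‖v (i + 1) - p‖ : ℂ)) / ((v i - p) / (‖v i - p‖ : ℂ)) := by
      intro i
      have h3 := Complex.norm_mul_exp_arg_mul_I ((v (i + 1) - p) / (v i - p))
      have h4 : ((‖(v (i + 1) - p) / (v i - p)‖ : ℝ) : ℂ) ≠ 0 := by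
        have : ‖(v (i + 1) - p) / (v i - p)‖ ≠ 0 := by
          rw [norm_ne_zero_iff]
          exact div_ne_zero (hne _) (hne _)
        exact_mod_cast this
      have h5 : (‖v (i + 1) - p‖ : ℂ) ≠ 0 := by exact_mod_cast norm_ne_zero_iff.2 (hne (i + 1))
      have h6 : (‖v i - p‖ : ℂ) ≠ 0 := by exact_mod_cast norm_ne_zero_iff.2 (hne i)
      rw [norm_div] at h3 h4
      push_cast at h3 h4
      have h7 := hne i
      field_simp at h3 ⊢
      linear_combination h3
    rw [Finset.prod_congr rfl (fun i _ => h2 i), Finset.prod_div_distrib]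
    rw [div_eq_one_iff_eq]
    · exact Equiv.prod_comp (Equiv.addRight (1 : Fin n)) (fun i => (v i - p) / (‖v i - p‖ : ℂ))
    · rw [Finset.prod_ne_zero_iff]
      intro i _
      exact div_ne_zero (hne i) (by exact_mod_cast norm_ne_zero_iff.2 (hne i))
  rw [Complex.exp_eq_one_iff] at h1
  obtain ⟨m, hm⟩ := h1
  refine ⟨m, ?_⟩
  have h2 : ((W v p : ℝ) : ℂ) = ((2 * Real.pi * m : ℝ) : ℂ) := by
    have hI : Complex.I ≠ 0 := Complex.I_ne_zero
    apply mul_right_cancel₀ hI
    rw [hm]; push_cast; ring
  exact_mod_cast h2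

theorem W_const {v : Fin n → ℂ} {S : Set ℂ} (hS : IsPreconnected S) (hd : ∀ p ∈ S, p ∉ poly v)
    {p q : ℂ} (hp : p ∈ S) (hq : q ∈ S) : W v p = W v q := by
  have hc : ContinuousOn (W v) S := fun x hx => (continuousAt_W (hd x hx)).continuousWithinAt
  have key : ∀ a ∈ S, ∀ b ∈ S, W v a ≤ W v b := by
    intro a ha b hb
    by_contra hlt
    push Not at hlt
    obtain ⟨ma, hma⟩ := W_int (hd a ha)
    obtain ⟨mb, hmb⟩ := W_int (hd b hb)
    have hpi := Real.pi_pos
    have hm : mb < ma := by
      have : (mb : ℝ) < ma := by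
        rw [hma, hmb] at hlt
        have := lt_of_mul_lt_mul_left hlt (by positivity)
        exact this
      exact_mod_cast this
    have hm' : (mb : ℝ) + 1 ≤ ma := by exact_mod_cast hm
    have hmem : W v b + Real.pi ∈ Set.Icc (W v b) (W v a) := by
      constructor
      · linarith
      · rw [hma, hmb]; nlinarith
    obtain ⟨c, hcS, hcv⟩ := hS.intermediate_value hb ha hc hmem
    obtain ⟨mc, hmc⟩ := W_int (hd c hcS)
    rw [hmc, hmb] at hcv
    have h2 : (2 * mc : ℝ) = 2 * mb + 1 := by
      have : Real.pi * (2 * mc) = Real.pi * (2 * mb + 1) := by linarith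
      exact mul_left_cancel₀ hpi.ne' this
    have h3 : (2 * mc : ℤ) = 2 * mb + 1 := by exact_mod_cast h2
    omega
  exact le_antisymm (key p hp q hq) (key q hq p hp)

theorem tendsto_term {a b p d : ℂ} (hd : d ≠ 0) :
    Tendsto (fun t : ℝ => Complex.arg ((b - (p + t • d)) / (a - (p + t • d)))) atTop (𝓝 0) := by
  have h1 : Tendsto (fun t : ℝ => ‖a - (p + t • d)‖) atTop atTop := by
    have h2 : Tendsto (fun t : ℝ => t * ‖d‖ - ‖a - p‖) atTop atTop := by
      apply tendsto_atTop_add_const_right
      exact Tendsto.atTop_mul_const (norm_pos_iff.2 hd) tendsto_id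
    apply tendsto_atTop_mono' atTop _ h2
    filter_upwards [eventually_ge_atTop (0 : ℝ)] with t ht
    have h3 : ‖t • d‖ ≤ ‖a - (p + t • d)‖ + ‖a - p‖ := by
      have : t • d = -(a - (p + t • d)) + (a - p) := by ring
      calc ‖t • d‖ = ‖-(a - (p + t • d)) + (a - p)‖ := by rw [← this]
        _ ≤ ‖-(a - (p + t • d))‖ + ‖a - p‖ := norm_add_le _ _
        _ = _ := by rw [norm_neg]
    rw [norm_smul, Real.norm_eq_abs, abs_of_nonneg ht] at h3
    linarith
  have h4 : Tendsto (fun t : ℝ => (b - a) / (a - (p + t • d))) atTop (𝓝 0) := by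
    rw [tendsto_zero_iff_norm_tendsto_zero]
    have : (fun t : ℝ => ‖(b - a) / (a - (p + t • d))‖) =
        fun t : ℝ => ‖b - a‖ / ‖a - (p + t • d)‖ := by
      funext t; rw [norm_div]
    rw [this]
    exact Tendsto.div_atTop tendsto_const_nhds h1
  have h5 : Tendsto (fun t : ℝ => (b - (p + t • d)) / (a - (p + t • d))) atTop (𝓝 1) := by
    have h6 : Tendsto (fun t : ℝ => 1 + (b - a) / (a - (p + t • d))) atTop (𝓝 (1 + 0)) :=
      tendsto_const_nhds.add h4
    rw [add_zero] at h6
    refine h6.congr' ?_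
    filter_upwards [h1.eventually_gt_atTop 0] with t ht
    have h7 : a - (p + t • d) ≠ 0 := norm_pos_iff.1 ht
    field_simp
    ring
  have h8 := (Complex.continuousAt_arg (Complex.one_mem_slitPlane)).tendsto
  rw [Complex.arg_one] at h8
  exact h8.comp h5

theorem W_eq_zero_of_ray {v : Fin n → ℂ} {p d : ℂ} (hd : d ≠ 0)
    (h : ∀ t : ℝ, 0 ≤ t → p + t • d ∉ poly v) : W v p = 0 := by
  have h1 : ∀ t : ℝ, 0 ≤ t → W v (p + t • d) = W v p := by
    intro t ht
    have hS : IsPreconnected ((fun t : ℝ => p + t • d) '' Set.Ici 0) :=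
      isPreconnected_Ici.image _ (by fun_prop)
    apply W_const hS
    · rintro _ ⟨s, hs, rfl⟩
      exact h s hs
    · exact ⟨t, ht, rfl⟩
    · exact ⟨0, by simp, by simp⟩
  have h2 : Tendsto (fun t : ℝ => W v (p + t • d)) atTop (𝓝 0) := by
    unfold W
    have h3 : Tendsto (fun t : ℝ => ∑ i, Complex.arg ((v (i + 1) - (p + t • d)) /
        (v i - (p + t • d)))) atTop (𝓝 (∑ _i : Fin n, (0 : ℝ))) :=
      tendsto_finsetSum _ (fun i _ => tendsto_term hd)
    simpa using h3
  have h3 : Tendsto (fun t : ℝ => W v (p + t • d)) atTop (𝓝 (W v p)) := by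
    refine tendsto_const_nhds.congr' ?_
    filter_upwards [eventually_ge_atTop (0 : ℝ)] with t ht
    exact (h1 t ht).symm
  exact tendsto_nhds_unique h3 h2

theorem arg_pos_scale {z : ℂ} {t : ℝ} (ht : 0 < t) : Complex.arg (z / (t : ℂ)) = Complex.arg z := by
  have : z / (t : ℂ) = ((t⁻¹ : ℝ) : ℂ) * z := by push_cast; ring
  rw [this]
  exact Complex.arg_real_mul z (inv_pos.2 ht)

/-- The corner lemma: if `b` is seen from the corner `T = v 0` of the polygon strictly between the
two neighbouring corners, the ray from `T` away from `b` avoids the polygon and the half-open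
segment `(T, b]` avoids the polygon, then the winding sum at `b` is not zero. -/
theorem W_corner {v : Fin n → ℂ} {b : ℂ} (hn : (0 : Fin n) ≠ -1) (hb : b - v 0 ≠ 0)
    (h1 : ((v (-1) - v 0) / (b - v 0)).im < 0) (h2 : 0 < ((v 1 - v 0) / (b - v 0)).im)
    (h3 : ∀ t : ℝ, 0 < t → v 0 - t • (b - v 0) ∉ poly v)
    (h4 : ∀ t : ℝ, 0 < t → t ≤ 1 → v 0 + t • (b - v 0) ∉ poly v)
    (h5 : ∀ i, i ≠ 0 → i ≠ -1 → v 0 ∉ segment ℝ (v i) (v (i + 1))) : W v b ≠ 0 := by
  intro hW
  set u := b - v 0 with hu
  set A := (v (-1) - v 0) / u with hA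
  set C := (v 1 - v 0) / u with hC
  have hAu : v (-1) - v 0 = A * u := by rw [hA]; field_simp
  have hCu : v 1 - v 0 = C * u := by rw [hC]; field_simp
  -- the other terms
  set G : ℂ → ℝ := fun p => ∑ i ∈ (Finset.univ.erase (0 : Fin n)).erase (-1),
    Complex.arg ((v (i + 1) - p) / (v i - p)) with hG
  have hGc : ContinuousAt G (v 0) := by
    rw [hG]
    apply tendsto_finsetSum
    intro i hi
    rw [Finset.mem_erase, Finset.mem_erase] at hi
    exact continuousAt_arg_term (h5 i hi.2.1 hi.1)
  have hsplit : ∀ p, W v p = Complex.arg ((v 1 - p) / (v 0 - p)) +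
      (Complex.arg ((v 0 - p) / (v (-1) - p)) + G p) := by
    intro p
    unfold W
    rw [← Finset.add_sum_erase _ _ (Finset.mem_univ (0 : Fin n))]
    have hmem : (-1 : Fin n) ∈ Finset.univ.erase (0 : Fin n) := by
      rw [Finset.mem_erase]; exact ⟨fun h => hn h.symm, Finset.mem_univ _⟩
    rw [← Finset.add_sum_erase _ _ hmem]
    rw [zero_add, neg_add_cancel]
  -- inside
  have hin : ∀ t : ℝ, 0 < t → t ≤ 1 → W v (v 0 + t • u) = 0 := by
    intro t ht ht1
    rw [← hW]
    have hS : IsPreconnected ((fun t : ℝ => v 0 + t • u) '' Set.Icc t 1) :=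
      isPreconnected_Icc.image _ (by fun_prop)
    apply W_const hS
    · rintro _ ⟨s, hs, rfl⟩
      exact h4 s (lt_of_lt_of_le ht hs.1) hs.2
    · exact ⟨t, ⟨le_rfl, ht1⟩, rfl⟩
    · exact ⟨1, ⟨ht1, le_rfl⟩, by simp [hu]⟩
  have hout : ∀ t : ℝ, 0 < t → W v (v 0 - t • u) = 0 := by
    intro t ht
    apply W_eq_zero_of_ray (d := -u) (neg_ne_zero.2 hb)
    intro s hs
    have := h3 (t + s) (by linarith)
    have e : v 0 - t • u + s • -u = v 0 - (t + s) • u := by
      simp only [Complex.real_smul]; push_cast; ring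
    rw [e]; exact this
  -- limit from inside
  have hAne : ∀ t : ℝ, (t : ℂ) - A ≠ 0 := by
    intro t h
    have := congrArg Complex.im h
    simp at this
    linarith
  have e1 : ∀ t : ℝ, 0 < t → t ≤ 1 →
      Complex.arg ((t : ℂ) - C) + (Complex.arg ((t : ℂ) - A)⁻¹ + G (v 0 + t • u)) = 0 := by
    intro t ht ht1
    rw [← hin t ht ht1, hsplit]
    have htc : (t : ℂ) ≠ 0 := by exact_mod_cast ht.ne'
    congr 1
    · rw [← arg_pos_scale (z := (t : ℂ) - C) ht]
      congr 1
      have : v 1 - (v 0 + t • u) = (C - t) * u := by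
        simp only [Complex.real_smul]; linear_combination hCu
      rw [this]
      have : v 0 - (v 0 + t • u) = -(t : ℂ) * u := by
        simp only [Complex.real_smul]; ring
      rw [this]
      field_simp
      ring
    · congr 1
      have h6 : ((t : ℂ) - A)⁻¹ = ((t : ℂ) / ((t : ℂ) - A)) / (t : ℂ) := by
        have := hAne t
        field_simp
      rw [h6, arg_pos_scale ht]
      congr 1
      have : v (-1) - (v 0 + t • u) = (A - t) * u := by
        simp only [Complex.real_smul]; linear_combination hAu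
      rw [this]
      have : v 0 - (v 0 + t • u) = -(t : ℂ) * u := by
        simp only [Complex.real_smul]; ring
      rw [this]
      have h7 := hAne t
      have h8 : A - (t : ℂ) ≠ 0 := by
        intro h; apply h7; linear_combination -h
      field_simp
      ring
  have e2 : ∀ t : ℝ, 0 < t →
      Complex.arg ((t : ℂ) + C) + (Complex.arg ((t : ℂ) + A)⁻¹ + G (v 0 - t • u)) = 0 := by
    intro t ht
    rw [← hout t ht, hsplit]
    have htc : (t : ℂ) ≠ 0 := by exact_mod_cast ht.ne'
    have hAne' : (t : ℂ) + A ≠ 0 := by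
      intro h
      have := congrArg Complex.im h
      simp at this
      linarith
    congr 1
    · rw [← arg_pos_scale (z := (t : ℂ) + C) ht]
      congr 1
      have : v 1 - (v 0 - t • u) = (C + t) * u := by
        simp only [Complex.real_smul]; linear_combination hCu
      rw [this]
      have : v 0 - (v 0 - t • u) = (t : ℂ) * u := by
        simp only [Complex.real_smul]; ring
      rw [this]
      field_simp
      ring
    · congr 1
      have h6 : ((t : ℂ) + A)⁻¹ = ((t : ℂ) / ((t : ℂ) + A)) / (t : ℂ) := by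
        field_simp
      rw [h6, arg_pos_scale ht]
      congr 1
      have : v (-1) - (v 0 - t • u) = (A + t) * u := by
        simp only [Complex.real_smul]; linear_combination hAu
      rw [this]
      have : v 0 - (v 0 - t • u) = (t : ℂ) * u := by
        simp only [Complex.real_smul]; ring
      rw [this]
      have h8 : A + (t : ℂ) ≠ 0 := by
        intro h; apply hAne'; linear_combination h
      field_simp
      ring
  have slit_of_im : ∀ z : ℂ, z.im ≠ 0 → z ∈ Complex.slitPlane := fun z hz =>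
    Complex.mem_slitPlane_iff.2 (Or.inr hz)
  have lim1 : Complex.arg (0 - C) + (Complex.arg (0 - A)⁻¹ + G (v 0)) = 0 := by
    have hc1 : ContinuousAt (fun t : ℝ => Complex.arg ((t : ℂ) - C) +
        (Complex.arg ((t : ℂ) - A)⁻¹ + G (v 0 + t • u))) 0 := by
      have a1 : ContinuousAt (fun t : ℝ => Complex.arg ((t : ℂ) - C)) 0 := by
        refine ContinuousAt.comp (f := fun t : ℝ => (t : ℂ) - C) (g := Complex.arg)
          (Complex.continuousAt_arg (slit_of_im _ ?_)) (by fun_prop)
        simp; exact h2.ne'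
      have a2 : ContinuousAt (fun t : ℝ => Complex.arg ((t : ℂ) - A)⁻¹) 0 := by
        refine ContinuousAt.comp (f := fun t : ℝ => ((t : ℂ) - A)⁻¹) (g := Complex.arg)
          (Complex.continuousAt_arg (slit_of_im _ ?_)) ?_
        · rw [Complex.inv_im]
          apply div_ne_zero
          · simp; exact h1.ne
          · rw [Ne, Complex.normSq_eq_zero]; exact hAne 0
        · exact ContinuousAt.inv₀ (by fun_prop) (hAne 0)
      have a3 : ContinuousAt (fun t : ℝ => G (v 0 + t • u)) 0 := by
        refine ContinuousAt.comp (f := fun t : ℝ => v 0 + t • u) (g := G) ?_ (by fun_prop)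
        simpa using hGc
      exact a1.add (a2.add a3)
    have hl := hc1.tendsto.mono_left (nhdsWithin_le_nhds (s := Set.Ioi (0 : ℝ)))
    have hz : Tendsto (fun t : ℝ => Complex.arg ((t : ℂ) - C) +
        (Complex.arg ((t : ℂ) - A)⁻¹ + G (v 0 + t • u))) (𝓝[>] 0) (𝓝 0) := by
      refine tendsto_const_nhds.congr' ?_
      filter_upwards [Ioc_mem_nhdsGT (zero_lt_one' ℝ)] with t ht
      exact (e1 t ht.1 ht.2).symm
    have := tendsto_nhds_unique hl hz
    simpa using this
  have lim2 : Complex.arg (0 + C) + (Complex.arg (0 + A)⁻¹ + G (v 0)) = 0 := by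
    have hAne' : ((0 : ℝ) : ℂ) + A ≠ 0 := by
      intro h
      have := congrArg Complex.im h
      simp at this
      linarith
    have hc1 : ContinuousAt (fun t : ℝ => Complex.arg ((t : ℂ) + C) +
        (Complex.arg ((t : ℂ) + A)⁻¹ + G (v 0 - t • u))) 0 := by
      have a1 : ContinuousAt (fun t : ℝ => Complex.arg ((t : ℂ) + C)) 0 := by
        refine ContinuousAt.comp (f := fun t : ℝ => (t : ℂ) + C) (g := Complex.arg)
          (Complex.continuousAt_arg (slit_of_im _ ?_)) (by fun_prop)
        simp; exact h2.ne'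
      have a2 : ContinuousAt (fun t : ℝ => Complex.arg ((t : ℂ) + A)⁻¹) 0 := by
        refine ContinuousAt.comp (f := fun t : ℝ => ((t : ℂ) + A)⁻¹) (g := Complex.arg)
          (Complex.continuousAt_arg (slit_of_im _ ?_)) ?_
        · rw [Complex.inv_im]
          apply div_ne_zero
          · simp; exact h1.ne
          · rw [Ne, Complex.normSq_eq_zero]; exact hAne'
        · exact ContinuousAt.inv₀ (by fun_prop) hAne'
      have a3 : ContinuousAt (fun t : ℝ => G (v 0 - t • u)) 0 := by
        refine ContinuousAt.comp (f := fun t : ℝ => v 0 - t • u) (g := G) ?_ (by fun_prop)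
        simpa using hGc
      exact a1.add (a2.add a3)
    have hl := hc1.tendsto.mono_left (nhdsWithin_le_nhds (s := Set.Ioi (0 : ℝ)))
    have hz : Tendsto (fun t : ℝ => Complex.arg ((t : ℂ) + C) +
        (Complex.arg ((t : ℂ) + A)⁻¹ + G (v 0 - t • u))) (𝓝[>] 0) (𝓝 0) := by
      refine tendsto_const_nhds.congr' ?_
      filter_upwards [self_mem_nhdsWithin] with t ht
      exact (e2 t ht).symm
    have := tendsto_nhds_unique hl hz
    simpa using this
  rw [zero_sub, zero_sub] at lim1
  rw [zero_add, zero_add] at lim2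
  have hpi := Real.pi_pos
  have f1 : Complex.arg (-C) = Complex.arg C - Real.pi :=
    Complex.arg_neg_eq_arg_sub_pi_of_im_pos h2
  have f2 : Complex.arg (-A) = Complex.arg A + Real.pi :=
    Complex.arg_neg_eq_arg_add_pi_of_im_neg h1
  have f3 : Complex.arg A⁻¹ = -Complex.arg A := by
    rw [Complex.arg_inv]
    rw [if_neg]
    intro h
    rw [Complex.arg_eq_pi_iff] at h
    linarith [h.2]
  have f4 : Complex.arg (-A)⁻¹ = -Complex.arg (-A) := by
    rw [Complex.arg_inv]
    rw [if_neg]
    intro h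
    rw [Complex.arg_eq_pi_iff] at h
    have := h.2
    simp at this
    linarith
  rw [f1, f4, f2] at lim1
  rw [f3] at lim2
  linarith

end Pool.Agent.A0dd0b
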