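import Pool.Agent.A0dd0b.Basic
import Pool.Agent.A0dd0b.Winding

/-!
# The outer face of a planar drawing of the dodecahedron graph
-/

namespace Pool.Agent.A0dd0b

/-- Neighbours as a list, for fast kernel computation. -/
def nb (v : Fin 20) : List (Fin 20) :=
  if v.val < 10 then [⟨(v.val + 1) % 10, by omega⟩, ⟨(v.val + 9) % 10, by omega⟩,
      ⟨(v.val + 10) % 20, by omega⟩]
  else [⟨v.val - 10, by omega⟩, ⟨10 + (v.val - 10 + 2) % 10, by omega⟩,
      ⟨10 + (v.val - 10 + 8) % 10, by omega⟩]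

theorem nb_iff : ∀ u v : Fin 20, dodecahedron.Adj u v ↔ v ∈ nb u := by
  decide +kernel

theorem nb_nodup : ∀ u : Fin 20, (nb u).Nodup := by
  decide +kernel

/-- One step of growing a vertex list inside the complement of `F`. -/
def grow (F S : List (Fin 20)) : List (Fin 20) :=
  (List.finRange 20).filter fun v =>
    decide (v ∈ S) || (!decide (v ∈ F) && (nb v).any fun u => decide (u ∈ S))

def faceOK (T a b c x y : Fin 20) : Bool :=
  decide (x ∈ nb c) && decide (y ∈ nb x) && decide (a ∈ nb y) &&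
  decide ([T, c, x, y, a].Nodup) && !decide (b ∈ [T, c, x, y, a]) &&
  (List.finRange 20).all fun v => decide (v ∈ [T, c, x, y, a]) ||
    decide (v ∈ (grow [T, c, x, y, a])^[8] [b])

theorem face_check : ∀ T : Fin 20, ∀ a ∈ nb T, ∀ b ∈ nb T, ∀ c ∈ nb T,
    a ≠ b → a ≠ c → b ≠ c → ∃ x ∈ nb c, ∃ y ∈ nb x, faceOK T a b c x y = true := by
  decide +kernel

/-- Strictly larger than zero in the lexicographic order. -/
def Pos (z : ℂ) : Prop := 0 < z.re ∨ (z.re = 0 ∧ 0 < z.im)

def cross (z w : ℂ) : ℝ := z.re * w.im - z.im * w.re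

theorem Pos.smul {z : ℂ} (h : Pos z) {t : ℝ} (ht : 0 < t) : Pos (t • z) := by
  rcases h with h | ⟨h, h'⟩
  · left; simpa using mul_pos ht h
  · right; exact ⟨by simp [h], by simpa using mul_pos ht h'⟩

theorem Pos.add {z w : ℂ} (h : Pos z) (h' : Pos w) : Pos (z + w) := by
  rcases h with h | ⟨h, k⟩ <;> rcases h' with h' | ⟨h', k'⟩
  · left; simp; linarith
  · left; simp; linarith
  · left; simp; linarith
  · right; exact ⟨by simp [h, h'], by simp; linarith⟩

theorem not_pos_zero : ¬ Pos 0 := by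
  rintro (h | ⟨-, h⟩) <;> simp at h

theorem pos_or_zero_smul {z : ℂ} (h : Pos z ∨ z = 0) {t : ℝ} (ht : 0 ≤ t) :
    Pos (t • z) ∨ t • z = 0 := by
  rcases eq_or_lt_of_le ht with h1 | h1
  · right; rw [← h1]; simp
  · rcases h with h | h
    · left; exact h.smul h1
    · right; rw [h]; simp

theorem pos_or_zero_add {z w : ℂ} (h : Pos z ∨ z = 0) (h' : Pos w ∨ w = 0) :
    Pos (z + w) ∨ z + w = 0 := by
  rcases h with h | h <;> rcases h' with h' | h'
  · left; exact h.add h'
  · left; rw [h', add_zero]; exact h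
  · left; rw [h, zero_add]; exact h'
  · right; rw [h, h', add_zero]

theorem exists_scale {z w : ℂ} (hz : Pos z) (hw : Pos w) (h : cross z w = 0) :
    ∃ s : ℝ, 0 < s ∧ w = s • z := by
  unfold cross at h
  rcases hz with hz | ⟨hz, hz'⟩
  · rcases hw with hw | ⟨hw, hw'⟩
    · refine ⟨w.re / z.re, div_pos hw hz, ?_⟩
      apply Complex.ext
      · simp; field_simp
      · simp; field_simp; linarith
    · rw [hw] at h
      have : z.re * w.im = 0 := by linarith
      rcases mul_eq_zero.1 this with h1 | h1 <;> linarith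
  · rw [hz] at h
    have : z.im * w.re = 0 := by linarith
    have hw0 : w.re = 0 := by
      rcases mul_eq_zero.1 this with h1 | h1
      · linarith
      · exact h1
    have hw' : 0 < w.im := by
      rcases hw with hw | ⟨-, hw⟩
      · linarith
      · exact hw
    refine ⟨w.im / z.im, div_pos hw' hz', ?_⟩
    apply Complex.ext
    · simp [hz, hw0]
    · simp; field_simp

theorem im_div_sign (z w : ℂ) : (w / z).im = cross z w / Complex.normSq z := by
  unfold cross
  rw [Complex.div_im]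
  ring

theorem exists_middle (z : Fin 20 → ℂ) {x₁ x₂ x₃ : Fin 20}
    (h12 : cross (z x₁) (z x₂) ≠ 0) (h13 : cross (z x₁) (z x₃) ≠ 0)
    (h23 : cross (z x₂) (z x₃) ≠ 0) (hne12 : x₁ ≠ x₂) (hne13 : x₁ ≠ x₃) (hne23 : x₂ ≠ x₃)
    (L : List (Fin 20)) (m1 : x₁ ∈ L) (m2 : x₂ ∈ L) (m3 : x₃ ∈ L) :
    ∃ a b c, a ∈ L ∧ b ∈ L ∧ c ∈ L ∧ a ≠ b ∧ a ≠ c ∧ b ≠ c ∧
      cross (z b) (z a) < 0 ∧ 0 < cross (z b) (z c) := by
  have anti : ∀ u w, cross (z u) (z w) = - cross (z w) (z u) := by
    intro u w; unfold cross; ring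
  rcases lt_or_gt_of_ne h12 with s12 | s12 <;> rcases lt_or_gt_of_ne h23 with s23 | s23
  · exact ⟨x₃, x₂, x₁, m3, m2, m1, hne23.symm, hne13.symm, hne12.symm, s23, by rw [anti]; linarith⟩
  · rcases lt_or_gt_of_ne h13 with s13 | s13
    · exact ⟨x₂, x₃, x₁, m2, m3, m1, hne23, hne12.symm, hne13.symm, by rw [anti]; linarith,
        by rw [anti]; linarith⟩
    · exact ⟨x₂, x₁, x₃, m2, m1, m3, hne12.symm, hne23, hne13, s12, s13⟩
  · rcases lt_or_gt_of_ne h13 with s13 | s13
    · exact ⟨x₃, x₁, x₂, m3, m1, m2, hne13.symm, hne23.symm, hne12, s13, s12⟩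
    · exact ⟨x₁, x₃, x₂, m1, m3, m2, hne13, hne12, hne23.symm, by rw [anti]; linarith,
        by rw [anti]; linarith⟩
  · exact ⟨x₁, x₂, x₃, m1, m2, m3, hne12, hne13, hne23, by rw [anti]; linarith, s23⟩

theorem exists_lexmin {g : Fin 20 → ℂ} (hg : Function.Injective g) :
    ∃ T, ∀ v, v ≠ T → Pos (g v - g T) := by
  obtain ⟨T, -, hT⟩ := Finset.exists_min_image (Finset.univ : Finset (Fin 20))
    (fun v => toLex ((g v).re, (g v).im)) ⟨0, Finset.mem_univ _⟩
  refine ⟨T, fun v hv => ?_⟩
  have h := hT v (Finset.mem_univ _)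
  rw [Prod.Lex.le_iff] at h
  simp only [ofLex_toLex] at h
  rcases h with h | ⟨h1, h2⟩
  · left; simpa using h
  · right
    refine ⟨by simp [h1], ?_⟩
    rcases eq_or_lt_of_le h2 with h3 | h3
    · exact absurd (hg (Complex.ext h1 h3)).symm hv
    · simpa using h3

theorem planar_face {g : Fin 20 → ℂ} (hd : IsDrawing dodecahedron g) :
    ∃ cyc : Fin 5 → Fin 20, Function.Injective cyc ∧
      (∀ i, dodecahedron.Adj (cyc i) (cyc (i + 1))) ∧
      ∀ v, (∀ i, cyc i ≠ v) → ∀ d : ℂ, d ≠ 0 →
        ∃ t : ℝ, 0 < t ∧ ∃ i, g v + t • d ∈ segment ℝ (g (cyc i)) (g (cyc (i + 1))) := by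
  obtain ⟨T, hT⟩ := exists_lexmin hd.inj
  -- pairwise non-parallel
  have hcross : ∀ a b, a ∈ nb T → b ∈ nb T → a ≠ b → cross (g a - g T) (g b - g T) ≠ 0 := by
    intro a b ha hb hab h0
    rw [← nb_iff] at ha hb
    obtain ⟨s, hs, hs'⟩ := exists_scale (hT a ha.ne') (hT b hb.ne') h0
    rcases le_total s 1 with h1 | h1
    · have hmem : g b ∈ segment ℝ (g T) (g a) := by
        refine ⟨1 - s, s, by linarith, hs.le, by ring, ?_⟩
        rw [Complex.real_smul, Complex.real_smul] at *
        push_cast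
        linear_combination -hs'
      rcases hd.vertex _ _ _ ha hmem with h | h
      · exact hb.ne' h
      · exact hab h.symm
    · have hmem : g a ∈ segment ℝ (g T) (g b) := by
        have hs0 : s ≠ 0 := hs.ne'
        refine ⟨1 - s⁻¹, s⁻¹, by linarith [inv_le_one_of_one_le₀ h1], (inv_pos.2 hs).le, by ring, ?_⟩
        rw [Complex.real_smul] at hs'
        rw [Complex.real_smul, Complex.real_smul]
        push_cast
        have hs0' : (s : ℂ) ≠ 0 := by exact_mod_cast hs0
        field_simp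
        linear_combination hs'
      rcases hd.vertex _ _ _ hb hmem with h | h
      · exact ha.ne' h
      · exact hab h
  obtain ⟨x₁, x₂, x₃, hx⟩ : ∃ x₁ x₂ x₃, nb T = [x₁, x₂, x₃] := by
    unfold nb; split_ifs <;> exact ⟨_, _, _, rfl⟩
  have hnd := nb_nodup T
  rw [hx] at hnd
  simp only [List.nodup_cons, List.mem_cons, List.not_mem_nil, or_false, not_or,
    List.nodup_nil, not_false_eq_true, and_true] at hnd
  obtain ⟨⟨n12, n13⟩, n23⟩ := hnd
  have m1 : x₁ ∈ nb T := by rw [hx]; simp
  have m2 : x₂ ∈ nb T := by rw [hx]; simp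
  have m3 : x₃ ∈ nb T := by rw [hx]; simp
  obtain ⟨a, b, c, ha, hb, hc, hab, hac, hbc, hs1, hs2⟩ :=
    exists_middle (fun v => g v - g T) (hcross _ _ m1 m2 n12) (hcross _ _ m1 m3 n13)
      (hcross _ _ m2 m3 n23) n12 n13 n23 (nb T) m1 m2 m3
  obtain ⟨x, -, y, -, hxy⟩ := face_check T a ha b hb c hc hab hac hbc
  simp only [faceOK, Bool.and_eq_true, decide_eq_true_eq, Bool.not_eq_true',
    decide_eq_false_iff_not] at hxy
  obtain ⟨⟨⟨⟨⟨hcx, hxy'⟩, hya⟩, hnodup⟩, hbF⟩, hall⟩ := hxy
  set cyc : Fin 5 → Fin 20 := ![T, c, x, y, a] with hcyc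
  have hAdj : ∀ i, dodecahedron.Adj (cyc i) (cyc (i + 1)) := by
    intro i
    fin_cases i
    · exact (nb_iff _ _).2 hc
    · exact (nb_iff _ _).2 hcx
    · exact (nb_iff _ _).2 hxy'
    · exact (nb_iff _ _).2 hya
    · exact ((nb_iff _ _).2 ha).symm
  have hmem : ∀ v, v ∈ [T, c, x, y, a] ↔ ∃ i, cyc i = v := by
    intro v
    simp only [List.mem_cons, List.not_mem_nil, or_false]
    constructor
    · rintro (h | h | h | h | h)
      · exact ⟨0, h.symm⟩
      · exact ⟨1, h.symm⟩
      · exact ⟨2, h.symm⟩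
      · exact ⟨3, h.symm⟩
      · exact ⟨4, h.symm⟩
    · rintro ⟨i, rfl⟩
      fin_cases i <;> simp [hcyc]
  have hinj : Function.Injective cyc := by
    have e : List.ofFn cyc = [T, c, x, y, a] := by
      simp [hcyc, List.ofFn_succ]
    rw [← List.nodup_ofFn, e]
    exact hnodup
  set v : Fin 5 → ℂ := fun i => g (cyc i) with hv
  -- polygon facts
  have hedge : ∀ u w, dodecahedron.Adj u w → (∀ i, cyc i ≠ u ∨ cyc i ≠ w ∨ True) →
      (¬ ∃ i, cyc i = w) → ∀ p, p ∈ segment ℝ (g u) (g w) → p ≠ g u → p ∉ poly v := by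
    intro u w huw _ hw p hp hpu hpoly
    rw [poly, Set.mem_iUnion] at hpoly
    obtain ⟨i, hi⟩ := hpoly
    have hne : s(u, w) ≠ s(cyc i, cyc (i + 1)) := by
      intro h
      rw [Sym2.eq_iff] at h
      rcases h with ⟨-, h⟩ | ⟨-, h⟩
      · exact hw ⟨_, h.symm⟩
      · exact hw ⟨_, h.symm⟩
    obtain ⟨q, hq1, hq2, hq3⟩ := hd.cross u w _ _ huw (hAdj i) hne p hp hi
    rcases hq1 with hq1 | hq1
    · rw [hq1] at hq3; exact hpu hq3
    · rw [hq1] at hq2
      rcases hq2 with hq2 | hq2
      · exact hw ⟨_, hq2.symm⟩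
      · exact hw ⟨_, hq2.symm⟩
  have hvert : ∀ w, (¬ ∃ i, cyc i = w) → g w ∉ poly v := by
    intro w hw hpoly
    rw [poly, Set.mem_iUnion] at hpoly
    obtain ⟨i, hi⟩ := hpoly
    rcases hd.vertex _ _ _ (hAdj i) hi with h | h
    · exact hw ⟨_, h.symm⟩
    · exact hw ⟨_, h.symm⟩
  have hconst : ∀ u w, dodecahedron.Adj u w → (¬ ∃ i, cyc i = u) → (¬ ∃ i, cyc i = w) →
      W v (g u) = W v (g w) := by
    intro u w huw hu hw
    apply W_const (S := segment ℝ (g u) (g w)) (convex_segment _ _).isPreconnected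
    · intro p hp
      by_cases hpu : p = g u
      · rw [hpu]; exact hvert u hu
      · exact hedge u w huw (fun _ => Or.inr (Or.inr trivial)) hw p hp hpu
    · exact left_mem_segment ℝ _ _
    · exact right_mem_segment ℝ _ _
  have hbF' : ¬ ∃ i, cyc i = b := by rw [← hmem]; exact hbF
  have hbT : g b - g T ≠ 0 := by
    rw [sub_ne_zero]; exact fun h => ((nb_iff _ _).2 hb).ne' (hd.inj h)
  have hnorm : 0 < Complex.normSq (g b - g T) := Complex.normSq_pos.2 hbT
  have hv0 : v 0 = g T := rfl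
  have hv1 : v 1 = g c := rfl
  have hv4 : v (-1) = g a := rfl
  have hWb : W v (g b) ≠ 0 := by
    apply W_corner (v := v) (b := g b) (by decide) (by rw [hv0]; exact hbT)
    · rw [hv4, hv0, im_div_sign]
      exact div_neg_of_neg_of_pos hs1 hnorm
    · rw [hv1, hv0, im_div_sign]
      exact div_pos hs2 hnorm
    · intro t ht hpoly
      rw [poly, Set.mem_iUnion] at hpoly
      obtain ⟨i, α, β, hα, hβ, hαβ, he⟩ := hpoly
      have hpz : ∀ j, Pos (v j - g T) ∨ v j - g T = 0 := by
        intro j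
        by_cases h : cyc j = T
        · right; rw [hv]; simp only [h]; ring
        · left; exact hT _ h
      have h1 := pos_or_zero_add (pos_or_zero_smul (hpz i) hα) (pos_or_zero_smul (hpz (i + 1)) hβ)
      have h2 : α • (v i - g T) + β • (v (i + 1) - g T) = -(t • (g b - g T)) := by
        have : α • (v i - g T) + β • (v (i + 1) - g T) =
            (α • v i + β • v (i + 1)) - (α + β) • g T := by
          simp only [Complex.real_smul]; push_cast; ring
        rw [this, he, hαβ, hv0]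
        simp only [Complex.real_smul]; push_cast; ring
      have h3 : Pos (t • (g b - g T)) := (hT b (fun h => ((nb_iff _ _).2 hb).ne' h)).smul ht
      rw [h2] at h1
      rcases h1 with h1 | h1
      · have := h1.add h3
        rw [neg_add_cancel] at this
        exact not_pos_zero this
      · rw [neg_eq_zero] at h1
        rw [h1] at h3
        exact not_pos_zero h3
    · intro t ht ht1
      apply hedge T b ((nb_iff _ _).2 hb) (fun _ => Or.inr (Or.inr trivial)) hbF'
      · refine ⟨1 - t, t, by linarith, ht.le, by ring, ?_⟩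
        rw [hv0]
        simp only [Complex.real_smul]; push_cast; ring
      · rw [hv0]
        intro h
        have : t • (g b - g T) = 0 := by
          have h' := sub_eq_zero.2 h
          rw [← h']; ring
        rw [smul_eq_zero] at this
        rcases this with h | h
        · exact ht.ne' h
        · exact hbT h
    · intro i hi0 hi4 hseg
      rcases hd.vertex _ _ _ (hAdj i) hseg with h | h
      · exact hi0 (hinj h.symm)
      · have : i + 1 = 0 := hinj h.symm
        exact hi4 (eq_neg_of_add_eq_zero_left this)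
  -- all other vertices have the same winding sum
  have hgrow : ∀ n : ℕ, ∀ w ∈ (grow [T, c, x, y, a])^[n] [b],
      (¬ ∃ i, cyc i = w) ∧ W v (g w) = W v (g b) := by
    intro n
    induction n with
    | zero =>
      intro w hw
      simp at hw
      subst hw
      exact ⟨hbF', rfl⟩
    | succ n ih =>
      intro w hw
      rw [Function.iterate_succ_apply'] at hw
      unfold grow at hw
      rw [List.mem_filter] at hw
      obtain ⟨-, hw⟩ := hw
      simp only [Bool.or_eq_true, decide_eq_true_eq, Bool.and_eq_true, Bool.not_eq_true',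
        decide_eq_false_iff_not, List.any_eq_true] at hw
      rcases hw with hw | ⟨hwF, u, hu, huS⟩
      · exact ih w hw
      · obtain ⟨h1, h2⟩ := ih u huS
        have hwF' : ¬ ∃ i, cyc i = w := by rw [← hmem]; exact hwF
        exact ⟨hwF', by rw [hconst w u ((nb_iff _ _).2 hu) hwF' h1, h2]⟩
  refine ⟨cyc, hinj, hAdj, ?_⟩
  intro w hw d hd0
  have hwF : ¬ ∃ i, cyc i = w := fun ⟨i, hi⟩ => hw i hi
  have hW : W v (g w) ≠ 0 := by
    rw [List.all_eq_true] at hall
    have := hall w (List.mem_finRange w)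
    simp only [Bool.or_eq_true, decide_eq_true_eq] at this
    rcases this with h | h
    · exact absurd ((hmem w).1 h) hwF
    · rw [(hgrow 8 w h).2]; exact hWb
  by_contra hcon
  push Not at hcon
  apply hW
  apply W_eq_zero_of_ray hd0
  intro t ht hpoly
  rcases eq_or_lt_of_le ht with h | h
  · rw [← h, zero_smul, add_zero] at hpoly
    exact hvert w hwF hpoly
  · rw [poly, Set.mem_iUnion] at hpoly
    obtain ⟨i, hi⟩ := hpoly
    exact hcon t h i hi

end Pool.Agent.A0dd0b
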